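import Pool.Agent.helper32.QS.Spec

set_option autoImplicit false

namespace QS

open scoped BigOperators commutatorElement

section core

variable {V : Type} [AddCommGroup V] [Finite V]

/-- powers indexed by `ZMod p` -/
noncomputable def C6b_pw (p : ℕ) (z : AddMonoid.End V) (a : ZMod p) : AddMonoid.End V := z ^ a.val

theorem C6b_pw_add (p : ℕ) [NeZero p] (z : AddMonoid.End V) (hz : z ^ p = 1) (a b : ZMod p) :
    C6b_pw p z (a + b) = C6b_pw p z a * C6b_pw p z b := by
  unfold C6b_pw
  rw [← pow_add, ZMod.val_add]
  conv_rhs => rw [← Nat.mod_add_div (a.val + b.val) p, pow_add, pow_mul, hz, one_pow, mul_one]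

theorem C6b_pw_zero (p : ℕ) [NeZero p] (z : AddMonoid.End V) : C6b_pw p z 0 = 1 := by
  unfold C6b_pw
  rw [ZMod.val_zero, pow_zero]

theorem C6b_pw_one (p : ℕ) (hp : 1 < p) (z : AddMonoid.End V) : C6b_pw p z 1 = z := by
  unfold C6b_pw
  have : Fact (1 < p) := ⟨hp⟩
  rw [ZMod.val_one, pow_one]

theorem C6b_pw_mul (p : ℕ) [NeZero p] (z : AddMonoid.End V) (hz : z ^ p = 1) (a b : ZMod p) :
    C6b_pw p z (a * b) = (C6b_pw p z a) ^ b.val := by
  unfold C6b_pw
  rw [← pow_mul, ZMod.val_mul]
  conv_rhs => rw [← Nat.mod_add_div (a.val * b.val) p, pow_add, pow_mul, hz, one_pow, mul_one]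

theorem C6b_sum_apply {ι : Type} (s : Finset ι) (f : ι → AddMonoid.End V) (v : V) :
    (∑ i ∈ s, f i) v = ∑ i ∈ s, f i v := by
  classical
  induction s using Finset.induction_on with
  | empty => simp
  | insert a s ha ih =>
    rw [Finset.sum_insert ha, Finset.sum_insert ha, ← ih]
    rfl

theorem C6b_core (p : ℕ) (hp : p.Prime) (hpV : ¬ p ∣ Nat.card V)
    (x y z y' : AddMonoid.End V) (hx : x ^ p = 1) (hz : z ^ p = 1) (hxz : x * z = z * x)
    (hyz : y * z = z * y) (hyy' : y * y' = 1) (hy'y : y' * y = 1) (hxy : x * y = z * y * x)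
    (hz1 : z ≠ 1) :
    ∃ Y : AddSubgroup V, Y ≠ ⊥ ∧ Nat.card Y ^ p ∣ Nat.card V ∧ Nat.card Y % p = 1 := by
  have hfact : Fact p.Prime := ⟨hp⟩
  have hne : NeZero p := ⟨hp.ne_zero⟩
  set Z : ZMod p → AddMonoid.End V := C6b_pw p z with hZ
  set W : ZMod p → AddMonoid.End V := C6b_pw p x with hW
  have Zadd : ∀ a b, Z (a + b) = Z a * Z b := C6b_pw_add p z hz
  have Wadd : ∀ a b, W (a + b) = W a * W b := C6b_pw_add p x hx
  have Z0 : Z 0 = 1 := C6b_pw_zero p z
  have W0 : W 0 = 1 := C6b_pw_zero p x
  have Z1 : Z 1 = z := C6b_pw_one p hp.one_lt z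
  have W1 : W 1 = x := C6b_pw_one p hp.one_lt x
  have hcxz : Commute x z := hxz
  have hWZ : ∀ a b, W a * Z b = Z b * W a := fun a b => (hcxz.pow_pow a.val b.val)
  have hyZ : ∀ a, y * Z a = Z a * y := fun a => (Commute.pow_right (show Commute y z from hyz) a.val)
  have hy'z : Commute y' z := by
    show y' * z = z * y'
    calc y' * z = y' * z * (y * y') := by rw [hyy', mul_one]
      _ = y' * (z * y) * y' := by simp only [mul_assoc]
      _ = y' * (y * z) * y' := by rw [hyz]
      _ = (y' * y) * z * y' := by simp only [mul_assoc]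
      _ = z * y' := by rw [hy'y, one_mul]
  have hy'Z : ∀ a, y' * Z a = Z a * y' := fun a => (Commute.pow_right hy'z a.val)
  have hZZ : ∀ a b, Z a * Z b = Z b * Z a := fun a b => by rw [← Zadd, ← Zadd, add_comm]
  -- p is invertible
  have hcop : Nat.Coprime p (Nat.card V) := (Nat.Prime.coprime_iff_not_dvd hp).2 hpV
  have hpinj : ∀ v : V, p • v = 0 → v = 0 := by
    intro v hv
    have h1 : addOrderOf v ∣ p := addOrderOf_dvd_of_nsmul_eq_zero hv
    have h2 : addOrderOf v ∣ Nat.card V := addOrderOf_dvd_natCard v
    have h3 : addOrderOf v ∣ 1 := by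
      rw [← hcop]
      exact Nat.dvd_gcd h1 h2
    exact AddMonoid.addOrderOf_eq_one_iff.1 (Nat.dvd_one.1 h3)
  obtain ⟨m, hm⟩ : ∃ m : ℕ, ∀ v : V, (m * p) • v = v := by
    refine ⟨p ^ (Nat.totient (Nat.card V) - 1), fun v => ?_⟩
    have h1 : p ^ (Nat.totient (Nat.card V) - 1) * p = p ^ Nat.totient (Nat.card V) := by
      rw [← pow_succ]
      congr 1
      have : 0 < Nat.totient (Nat.card V) := Nat.totient_pos.2 Nat.card_pos
      omega
    rw [h1]
    have h2 : p ^ Nat.totient (Nat.card V) ≡ 1 [MOD Nat.card V] := Nat.ModEq.pow_totient hcop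
    have h3 : p ^ Nat.totient (Nat.card V) ≡ 1 [MOD addOrderOf v] :=
      h2.of_dvd (addOrderOf_dvd_natCard v)
    have h4 := (nsmul_eq_nsmul_iff_modEq (x := v)).2 h3
    rwa [one_nsmul] at h4
  -- N
  let N : AddMonoid.End V := ∑ a : ZMod p, Z a
  have hNZ : ∀ a, N * Z a = Z a * N := by
    intro a
    simp only [N, Finset.sum_mul, Finset.mul_sum]
    exact Finset.sum_congr rfl fun b _ => hZZ b a
  have hNW : ∀ a, N * W a = W a * N := by
    intro a
    simp only [N, Finset.sum_mul, Finset.mul_sum]
    exact Finset.sum_congr rfl fun b _ => (hWZ a b).symm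
  have hNy : N * y = y * N := by
    simp only [N, Finset.sum_mul, Finset.mul_sum]
    exact Finset.sum_congr rfl fun b _ => (hyZ b).symm
  have hNy' : N * y' = y' * N := by
    simp only [N, Finset.sum_mul, Finset.mul_sum]
    exact Finset.sum_congr rfl fun b _ => (hy'Z b).symm
  have hsum : ∀ c : ZMod p, c ≠ 0 → ∑ a : ZMod p, Z (c * a) = N := by
    intro c hc
    exact Fintype.sum_equiv (Equiv.mulLeft₀ c hc) _ _ (fun a => rfl)
  let Y : ZMod p → AddSubgroup V := fun a =>
    { carrier := {v | N v = 0 ∧ x (Z a v) = v}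
      zero_mem' := by simp
      add_mem' := by
        rintro u v ⟨h1, h2⟩ ⟨h3, h4⟩
        refine ⟨by rw [map_add, h1, h3, add_zero], by rw [map_add, map_add, h2, h4]⟩
      neg_mem' := by
        rintro u ⟨h1, h2⟩
        refine ⟨by rw [map_neg, h1, neg_zero], by rw [map_neg, map_neg, h2]⟩ }
  let K : AddSubgroup V :=
    { carrier := {v | N v = 0}
      zero_mem' := by simp
      add_mem' := by
        intro u v h1 h3
        show N (u + v) = 0
        rw [map_add]
        show N u + N v = 0
        rw [show N u = 0 from h1, show N v = 0 from h3, add_zero]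
      neg_mem' := by
        intro u h1
        show N (-u) = 0
        rw [map_neg, show N u = 0 from h1, neg_zero] }
  let E : ZMod p → AddMonoid.End V := fun a => ∑ i : ZMod p, W i * Z (a * i)
  have hE1 : ∀ v : V, N v = 0 → ∑ a : ZMod p, E a v = p • v := by
    intro v hv
    have h1 : ∑ a : ZMod p, E a v = ∑ i : ZMod p, W i (∑ a : ZMod p, Z (a * i) v) := by
      simp only [E]
      have : ∀ a : ZMod p, (∑ i : ZMod p, W i * Z (a * i)) v = ∑ i : ZMod p, W i (Z (a * i) v) := by
        intro a
        rw [C6b_sum_apply]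
        rfl
      simp only [this]
      rw [Finset.sum_comm]
      refine Finset.sum_congr rfl fun i _ => ?_
      rw [map_sum]
    rw [h1]
    have h2 : ∀ i : ZMod p, i ≠ 0 → W i (∑ a : ZMod p, Z (a * i) v) = 0 := by
      intro i hi
      have h3 : ∑ a : ZMod p, Z (a * i) v = N v := by
        rw [← hsum i hi]
        rw [C6b_sum_apply]
        refine Finset.sum_congr rfl fun a _ => ?_
        rw [mul_comm]
      rw [h3, hv, map_zero]
    rw [Finset.sum_eq_single 0 (fun i _ hi => h2 i hi) (by simp)]
    simp only [mul_zero, Z0, W0]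
    show ∑ a : ZMod p, v = p • v
    rw [Finset.sum_const, Finset.card_univ, ZMod.card]
  have hE2 : ∀ (a b : ZMod p) (v : V), v ∈ Y b → E a v = if a = b then p • v else 0 := by
    rintro a b v ⟨h1, h2⟩
    have h3 : x v = Z (-b) v := by
      have : Z (-b) (x (Z b v)) = x v := by
        have h4 : Z (-b) * (x * Z b) = x := by
          have := hWZ 1 b
          rw [W1] at this
          rw [this, ← mul_assoc, ← Zadd, neg_add_cancel, Z0, one_mul]
        exact congrArg (fun f : AddMonoid.End V => f v) h4
      rw [← this, h2]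
    have h5 : ∀ n : ℕ, (x ^ n) v = ((Z (-b)) ^ n) v := by
      intro n
      induction n with
      | zero => rfl
      | succ n ihn =>
        have h6 : x ^ (n + 1) = x ^ n * x := pow_succ x n
        have h7 : (Z (-b)) ^ (n + 1) = Z (-b) * (Z (-b)) ^ n := pow_succ' _ n
        have h8 : x ^ n * Z (-b) = Z (-b) * x ^ n := by
          have : Commute x (Z (-b)) := by
            have := hWZ 1 (-b)
            rwa [W1] at this
          exact this.pow_left n
        calc (x ^ (n + 1)) v = (x ^ n) (x v) := by rw [h6]; rfl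
          _ = (x ^ n * Z (-b)) v := by rw [h3]; rfl
          _ = Z (-b) ((x ^ n) v) := by rw [h8]; rfl
          _ = ((Z (-b)) ^ (n + 1)) v := by rw [ihn, h7]; rfl
    have h9 : E a v = ∑ i : ZMod p, Z ((a - b) * i) v := by
      simp only [E]
      rw [C6b_sum_apply]
      refine Finset.sum_congr rfl fun i _ => ?_
      rw [hWZ]
      show Z (a * i) (W i v) = _
      have : W i v = Z ((-b) * i) v := by
        have := h5 i.val
        rw [hZ, C6b_pw_mul p z hz (-b) i]
        exact this
      rw [this]
      have h10 : Z ((a - b) * i) = Z (a * i) * Z ((-b) * i) := by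
        rw [← Zadd]
        congr 1
        ring
      rw [h10]
      rfl
    rw [h9]
    split_ifs with hab
    · subst hab
      simp only [sub_self, zero_mul, Z0]
      show ∑ i : ZMod p, v = p • v
      rw [Finset.sum_const, Finset.card_univ, ZMod.card]
    · have := hsum (a - b) (sub_ne_zero.2 hab)
      rw [← C6b_sum_apply, this]
      exact h1
  have hE3 : ∀ (a : ZMod p) (v : V), N v = 0 → E a v ∈ Y a := by
    intro a v hv
    constructor
    · show (N * E a) v = 0
      have : N * E a = E a * N := by
        simp only [E, Finset.sum_mul, Finset.mul_sum]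
        refine Finset.sum_congr rfl fun i _ => ?_
        rw [← mul_assoc, hNW, mul_assoc, hNZ, ← mul_assoc]
      rw [this]
      show E a (N v) = 0
      rw [hv, map_zero]
    · show (x * Z a * E a) v = E a v
      have : x * Z a * E a = E a := by
        simp only [E, Finset.mul_sum]
        refine Fintype.sum_equiv (Equiv.addRight 1) _ _ fun i => ?_
        show x * Z a * (W i * Z (a * i)) = W (i + 1) * Z (a * (i + 1))
        rw [Wadd, W1, mul_add, mul_one, Zadd]
        have e1 : Z a * W i = W i * Z a := (hWZ i a).symm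
        have e2 : x * W i = W i * x := by
          rw [← W1, ← Wadd, ← Wadd, add_comm]
        calc x * Z a * (W i * Z (a * i)) = x * (Z a * W i) * Z (a * i) := by simp only [mul_assoc]
          _ = x * W i * (Z a * Z (a * i)) := by rw [e1]; simp only [mul_assoc]
          _ = W i * x * (Z (a * i) * Z a) := by rw [e2, hZZ a (a * i)]
      rw [this]
  -- the bijection
  have hcardK : Nat.card K = Nat.card (∀ a : ZMod p, Y a) := by
    refine (Nat.card_congr (Equiv.ofBijective
      (fun f : (∀ a : ZMod p, Y a) => (⟨∑ a, (f a : V), by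
        show N (∑ a, (f a : V)) = 0
        rw [map_sum]
        exact Finset.sum_eq_zero fun a _ => (f a).2.1⟩ : K)) ⟨?_, ?_⟩)).symm
    · intro f g hfg
      have h0 : ∑ a, (f a : V) = ∑ a, (g a : V) := congrArg Subtype.val hfg
      funext b
      apply Subtype.ext
      have h1 : ∀ h : (∀ a : ZMod p, Y a), E b (∑ a, (h a : V)) = p • (h b : V) := by
        intro h
        rw [map_sum]
        rw [Finset.sum_eq_single b]
        · rw [hE2 b b _ (h b).2, if_pos rfl]
        · intro a _ hab
          rw [hE2 b a _ (h a).2, if_neg (Ne.symm hab)]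
        · simp
      have h2 : p • ((f b : V) - (g b : V)) = 0 := by
        rw [smul_sub, ← h1 f, ← h1 g, h0, sub_self]
      exact sub_eq_zero.1 (hpinj _ h2)
    · rintro ⟨v, hv⟩
      refine ⟨fun a => ⟨m • E a v, (Y a).nsmul_mem (hE3 a v hv) m⟩, ?_⟩
      apply Subtype.ext
      show ∑ a, m • E a v = v
      rw [← Finset.smul_sum, hE1 v hv, smul_smul]
      exact hm v
  have hstep : ∀ a : ZMod p, Nat.card (Y (a + 1)) = Nat.card (Y a) := by
    intro a
    refine Nat.card_congr ?_
    refine
      { toFun := fun v => ⟨y v.1, ?_, ?_⟩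
        invFun := fun v => ⟨y' v.1, ?_, ?_⟩
        left_inv := fun v => Subtype.ext ?_
        right_inv := fun v => Subtype.ext ?_ }
    · show (N * y) v.1 = 0
      rw [hNy]
      show y (N v.1) = 0
      rw [v.2.1, map_zero]
    · show (x * Z a * y) v.1 = y v.1
      have : x * Z a * y = y * (x * Z (a + 1)) := by
        have e1 : Z a * y = y * Z a := (hyZ a).symm
        have e2 : x * Z a = Z a * x := by
          have := hWZ 1 a
          rwa [W1] at this
        calc x * Z a * y = Z a * (x * y) := by rw [e2, mul_assoc]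
          _ = Z a * z * y * x := by rw [hxy]; simp only [mul_assoc]
          _ = Z (a + 1) * y * x := by rw [Zadd, Z1]
          _ = y * (Z (a + 1) * x) := by rw [← hyZ, mul_assoc]
          _ = y * (x * Z (a + 1)) := by
            have := hWZ 1 (a + 1)
            rw [W1] at this
            rw [this]
      rw [this]
      show y (x (Z (a + 1) v.1)) = y v.1
      rw [v.2.2]
    · show (N * y') v.1 = 0
      rw [hNy']
      show y' (N v.1) = 0
      rw [v.2.1, map_zero]
    · show (x * Z (a + 1) * y') v.1 = y' v.1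
      have h1 : x * Z a * y = y * (x * Z (a + 1)) := by
        have e1 : Z a * y = y * Z a := (hyZ a).symm
        have e2 : x * Z a = Z a * x := by
          have := hWZ 1 a
          rwa [W1] at this
        calc x * Z a * y = Z a * (x * y) := by rw [e2, mul_assoc]
          _ = Z a * z * y * x := by rw [hxy]; simp only [mul_assoc]
          _ = Z (a + 1) * y * x := by rw [Zadd, Z1]
          _ = y * (Z (a + 1) * x) := by rw [← hyZ, mul_assoc]
          _ = y * (x * Z (a + 1)) := by
            have := hWZ 1 (a + 1)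
            rw [W1] at this
            rw [this]
      have h2 : x * Z (a + 1) * y' = y' * (x * Z a) := by
        calc x * Z (a + 1) * y' = (y' * y) * (x * Z (a + 1)) * y' := by rw [hy'y, one_mul]
          _ = y' * (y * (x * Z (a + 1))) * y' := by simp only [mul_assoc]
          _ = y' * (x * Z a * y) * y' := by rw [h1]
          _ = y' * (x * Z a) * (y * y') := by simp only [mul_assoc]
          _ = y' * (x * Z a) := by rw [hyy', mul_one]
      rw [h2]
      show y' (x (Z a v.1)) = y' v.1
      rw [v.2.2]
    · show (y' * y) v.1 = v.1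
      rw [hy'y]
      rfl
    · show (y * y') v.1 = v.1
      rw [hyy']
      rfl
  have hall : ∀ a : ZMod p, Nat.card (Y a) = Nat.card (Y 0) := by
    intro a
    have h1 : ∀ n : ℕ, Nat.card (Y (n : ZMod p)) = Nat.card (Y 0) := by
      intro n
      induction n with
      | zero => rw [Nat.cast_zero]
      | succ n ihn => rw [Nat.cast_succ, hstep, ihn]
    have := h1 a.val
    rwa [ZMod.natCast_zmod_val] at this
  have hcard : Nat.card K = Nat.card (Y 0) ^ p := by
    rw [hcardK, Nat.card_pi]
    simp only [hall]
    rw [Finset.prod_const, Finset.card_univ, ZMod.card]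
  refine ⟨Y 0, ?_, ?_, ?_⟩
  · intro hbot
    apply hz1
    have hK1 : Nat.card K = 1 := by
      rw [hcard, hbot]
      simp
    ext v
    have hw : z v - v ∈ K := by
      show N (z v - v) = 0
      have h1 : N * z = N := by
        simp only [N, Finset.sum_mul]
        refine Fintype.sum_equiv (Equiv.addRight 1) _ _ fun i => ?_
        show Z i * z = Z (i + 1)
        rw [Zadd, Z1]
      rw [map_sub]
      show (N * z) v - N v = 0
      rw [h1, sub_self]
    have hKbot : K = ⊥ := (AddSubgroup.card_eq_one (H := K)).1 hK1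
    rw [hKbot] at hw
    have := AddSubgroup.mem_bot.1 hw
    exact sub_eq_zero.1 this
  · rw [← hcard]
    exact AddSubgroup.card_addSubgroup_dvd_card K
  · let act : MulAction (Multiplicative (ZMod p)) (Y 0) :=
      { smul := fun g v => ⟨Z g.toAdd v.1, by
          show (N * Z g.toAdd) v.1 = 0
          rw [hNZ]
          show Z g.toAdd (N v.1) = 0
          rw [v.2.1, map_zero], by
          show (x * (Z 0 * Z g.toAdd)) v.1 = Z g.toAdd v.1
          have : x * (Z 0 * Z g.toAdd) = Z g.toAdd * (x * Z 0) := by
            have e2 : x * Z g.toAdd = Z g.toAdd * x := by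
              have := hWZ 1 g.toAdd
              rwa [W1] at this
            rw [Z0, one_mul, mul_one, e2]
          rw [this]
          show Z g.toAdd (x (Z 0 v.1)) = Z g.toAdd v.1
          rw [v.2.2]⟩
        one_smul := fun v => by
          apply Subtype.ext
          show Z 0 v.1 = v.1
          rw [Z0]
          rfl
        mul_smul := fun g h v => by
          apply Subtype.ext
          show Z (g.toAdd + h.toAdd) v.1 = Z g.toAdd (Z h.toAdd v.1)
          rw [Zadd]
          rfl }
    have hG : IsPGroup p (Multiplicative (ZMod p)) := by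
      apply IsPGroup.of_card (n := 1)
      rw [pow_one]
      simp
    have h1 := hG.card_modEq_card_fixedPoints (Y 0)
    have h2 : Nat.card (MulAction.fixedPoints (Multiplicative (ZMod p)) (Y 0)) = 1 := by
      rw [Nat.card_eq_one_iff_unique]
      refine ⟨⟨fun u v => ?_⟩, ⟨⟨0, ?_⟩⟩⟩
      · have h3 : ∀ w : MulAction.fixedPoints (Multiplicative (ZMod p)) (Y 0),
            ((w : Y 0) : V) = 0 := by
          intro w
          have h4 : ∀ a : ZMod p, Z a ((w : Y 0) : V) = ((w : Y 0) : V) := by
            intro a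
            have := w.2 (Multiplicative.ofAdd a)
            exact congrArg Subtype.val this
          have h5 : N ((w : Y 0) : V) = p • ((w : Y 0) : V) := by
            show (∑ a : ZMod p, Z a) ((w : Y 0) : V) = _
            rw [C6b_sum_apply]
            simp only [h4]
            rw [Finset.sum_const, Finset.card_univ, ZMod.card]
          apply hpinj
          rw [← h5]
          exact (w : Y 0).2.1
        apply Subtype.ext
        apply Subtype.ext
        rw [h3 u, h3 v]
      · intro g
        apply Subtype.ext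
        show Z g.toAdd (0 : V) = 0
        rw [map_zero]
    rw [h2] at h1
    have h3 : Nat.card (Y 0) % p = 1 % p := h1
    rw [h3, Nat.mod_eq_of_lt hp.one_lt]

end core

theorem C6b : C6_stmt := by
  intro X _ _ p l hp hl hlp hX x y hH
  obtain ⟨hx, hy, hz1, hzx, hzy⟩ := hH
  have hfl : Fact l.Prime := ⟨hl⟩
  obtain ⟨n, hn⟩ := IsPGroup.iff_card.1 hX
  let φ : MulAut X →* AddMonoid.End (Additive X) :=
    { toFun := fun a => MonoidHom.toAdditive a.toMonoidHom
      map_one' := rfl
      map_mul' := fun a b => rfl }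
  have hφ : Function.Injective φ := by
    intro a b hab
    apply MulEquiv.ext
    intro v
    have := congrArg (fun f : AddMonoid.End (Additive X) => f (Additive.ofMul v)) hab
    exact this
  have hpV : ¬ p ∣ Nat.card (Additive X) := by
    have : Nat.card (Additive X) = l ^ n := hn
    rw [this]
    intro h
    exact hlp ((Nat.prime_dvd_prime_iff_eq hp hl).1 (hp.dvd_of_dvd_pow h)).symm
  have hzp : ⁅x, y⁆ ^ p = 1 := by
    have h1 : ∀ k : ℕ, x ^ k * y = ⁅x, y⁆ ^ k * y * x ^ k := by
      intro k
      induction k with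
      | zero => simp
      | succ k ihk =>
        have h2 : x * y = ⁅x, y⁆ * y * x := by
          rw [commutatorElement_def]; group
        have h3 : Commute ⁅x, y⁆ (x ^ k) := (Commute.pow_right (show Commute ⁅x, y⁆ x from hzx) k)
        calc x ^ (k + 1) * y = x ^ k * (x * y) := by rw [pow_succ, mul_assoc]
          _ = x ^ k * ⁅x, y⁆ * y * x := by rw [h2]; simp only [mul_assoc]
          _ = ⁅x, y⁆ * (x ^ k * y) * x := by rw [← h3.eq]; simp only [mul_assoc]
          _ = ⁅x, y⁆ * (⁅x, y⁆ ^ k * y * x ^ k) * x := by rw [ihk]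
          _ = ⁅x, y⁆ ^ (k + 1) * y * x ^ (k + 1) := by
            rw [pow_succ' ⁅x, y⁆ k, pow_succ x k]; simp only [mul_assoc]
    have h4 := h1 p
    rw [hx, one_mul, mul_one] at h4
    have h5 : 1 * y = ⁅x, y⁆ ^ p * y := by rw [one_mul]; exact h4
    exact (mul_right_cancel h5).symm
  obtain ⟨Y, hY1, hY2, hY3⟩ := C6b_core (V := Additive X) p hp hpV (φ x) (φ y) (φ ⁅x, y⁆) (φ y⁻¹)
    (by rw [← map_pow, hx, map_one]) (by rw [← map_pow, hzp, map_one])
    (by rw [← map_mul, ← map_mul, hzx]) (by rw [← map_mul, ← map_mul, hzy])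
    (by rw [← map_mul, mul_inv_cancel, map_one]) (by rw [← map_mul, inv_mul_cancel, map_one])
    (by
      rw [← map_mul, ← map_mul, ← map_mul]
      congr 1
      rw [commutatorElement_def]; group)
    (by
      intro h
      apply hz1
      apply hφ
      rw [h, map_one])
  have hYd : Nat.card Y ∣ l ^ n := by
    have h1 : Nat.card Y ∣ Nat.card (Additive X) := AddSubgroup.card_addSubgroup_dvd_card Y
    have h2 : Nat.card (Additive X) = l ^ n := hn
    rwa [h2] at h1
  obtain ⟨i, -, hi⟩ := (Nat.dvd_prime_pow hl).1 hYd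
  refine ⟨i, ?_, ?_, ?_⟩
  · rcases Nat.eq_zero_or_pos i with h | h
    · exfalso
      rw [h, pow_zero] at hi
      exact hY1 ((AddSubgroup.card_eq_one (H := Y)).1 hi)
    · exact h
  · rw [← hi]
    exact hY3
  · rw [pow_mul, ← hi]
    exact hY2

end QS
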