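import Pool.Agent.helper51.QS.SpecB

set_option autoImplicit false

namespace Pool.Agent.QS

open Pool.Agent.PC

universe u

theorem DSC_stable {R A G : Type u} [CommRing R] [CommRing A] [Algebra R A] [Group G]
    [MulSemiringAction G A] [SMulCommClass G R A] (S : Ideal R) (g : G) (x : A)
    (hx : x ∈ (S.map (algebraMap R A)).radical) : g • x ∈ (S.map (algebraMap R A)).radical := by
  obtain ⟨n, hn⟩ := hx
  refine ⟨n, ?_⟩
  have h1 : (MulSemiringAction.toRingHom G A g).comp (algebraMap R A) = algebraMap R A := by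
    ext r
    show g • algebraMap R A r = algebraMap R A r
    rw [smul_algebraMap]
  have h2 := Ideal.mem_map_of_mem (MulSemiringAction.toRingHom G A g) hn
  rw [Ideal.map_map, h1] at h2
  have h3 : MulSemiringAction.toRingHom G A g (x ^ n) = (g • x) ^ n := by
    rw [map_pow]
    rfl
  rwa [h3] at h2

/-- an integral element of the fraction field, as an equation in the ring -/
theorem DSC_int {T : Type u} [CommRing T] [IsDomain T] (r s : T) (hs : s ≠ 0)
    (hint : IsIntegral T (algebraMap T (FractionRing T) r / algebraMap T (FractionRing T) s)) :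
    ∃ (N : ℕ) (a : ℕ → T), 0 < N ∧ r ^ N + ∑ i ∈ Finset.range N, a i * r ^ i * s ^ (N - i) = 0 := by
  obtain ⟨P, hP, hPe⟩ := hint
  have hs' : algebraMap T (FractionRing T) s ≠ 0 := by
    intro h0
    exact hs ((IsFractionRing.injective T (FractionRing T)) (h0.trans (map_zero _).symm))
  refine ⟨P.natDegree, P.coeff, ?_, ?_⟩
  · rw [Nat.pos_iff_ne_zero]
    intro h0
    have h1 : P = 1 := Polynomial.eq_one_of_monic_natDegree_zero hP h0
    rw [h1, Polynomial.eval₂_one] at hPe
    exact one_ne_zero hPe
  · apply IsFractionRing.injective T (FractionRing T)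
    rw [map_zero]
    rw [Polynomial.eval₂_eq_sum_range, Finset.sum_range_succ, hP.coeff_natDegree, map_one, one_mul] at hPe
    have h2 := congrArg (fun x => algebraMap T (FractionRing T) s ^ P.natDegree * x) hPe
    simp only [mul_zero] at h2
    rw [← h2, map_add, map_pow, map_sum, mul_add, add_comm]
    congr 1
    · rw [Finset.mul_sum]
      refine Finset.sum_congr rfl fun i hi => ?_
      rw [map_mul, map_mul, map_pow, map_pow, div_pow]
      have hi' : i ≤ P.natDegree := (Finset.mem_range.1 hi).le
      have e : algebraMap T (FractionRing T) s ^ P.natDegree =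
          algebraMap T (FractionRing T) s ^ (P.natDegree - i) * algebraMap T (FractionRing T) s ^ i := by
        rw [← pow_add, Nat.sub_add_cancel hi']
      rw [e]
      field_simp
    · rw [div_pow]
      field_simp

theorem DSC (hRAD : RAD_stmt.{u}) : DSC_stmt.{u} := by
  intro R A G _ _ _ _ _ _ _ _ _ _ _ S hS hh ⟨c, r₀, hc, hr₀⟩ H
  obtain ⟨-, h2, h3⟩ := hRAD R A G S hS hh
  have hdom : IsDomain (R ⧸ S) := Ideal.Quotient.isDomain S
  rw [isIntegrallyClosed_iff (FractionRing (R ⧸ S))]
  intro x hx
  obtain ⟨rb, sb, hsb, hxe⟩ := IsFractionRing.div_surjective (A := R ⧸ S) x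
  have hsb0 : sb ≠ 0 := nonZeroDivisors.ne_zero hsb
  rw [← hxe] at hx
  obtain ⟨N, ab, hN, hab⟩ := DSC_int rb sb hsb0 hx
  obtain ⟨r, rfl⟩ := Ideal.Quotient.mk_surjective rb
  obtain ⟨s, rfl⟩ := Ideal.Quotient.mk_surjective sb
  have hs : s ∉ S := fun h => hsb0 (Ideal.Quotient.eq_zero_iff_mem.2 h)
  choose a ha using fun i => Ideal.Quotient.mk_surjective (I := S) (ab i)
  have hrel : r ^ N + ∑ i ∈ Finset.range N, a i * r ^ i * s ^ (N - i) ∈ S := by
    rw [← Ideal.Quotient.eq_zero_iff_mem, map_add, map_pow, map_sum, ← hab]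
    congr 1
    refine Finset.sum_congr rfl fun i _ => ?_
    rw [map_mul, map_mul, map_pow, map_pow, ha]
  have hmem := H r s hs ⟨N, a, hN, hrel⟩
  obtain ⟨y, hy, i, hi, hyi⟩ := Submodule.mem_sup.1 hmem
  obtain ⟨b, hb⟩ := Ideal.mem_span_singleton'.1 hy
  -- b * s + i = r
  have hbs : algebraMap R A s * b + i = algebraMap R A r := by
    rw [mul_comm, hb]
    exact hyi
  have hdiff : ∀ g : G, g • b - b ∈ (S.map (algebraMap R A)).radical := by
    intro g
    apply h2 s hs
    have e1 : algebraMap R A s * (g • b) + g • i = algebraMap R A r := by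
      have h4 := congrArg (fun z => g • z) hbs
      simp only [smul_add, smul_mul', smul_algebraMap] at h4
      exact h4
    have e2 : algebraMap R A s * (g • b - b) = i - g • i := by
      linear_combination e1 - hbs
    rw [e2]
    exact Ideal.sub_mem _ hi (DSC_stable S g i hi)
  -- the trace
  letI : Fintype G := Fintype.ofFinite G
  have hinv : ∀ g : G, g • (∑ h : G, h • (c * b)) = ∑ h : G, h • (c * b) := by
    intro g
    rw [Finset.smul_sum, ← Equiv.sum_comp (Equiv.mulLeft g) (fun h : G => h • (c * b))]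
    refine Finset.sum_congr rfl fun h _ => ?_
    rw [smul_smul]
    rfl
  obtain ⟨r', hr'⟩ := Algebra.IsInvariant.isInvariant (A := R) (B := A) (G := G) _ hinv
  rw [finsum_eq_sum_of_fintype] at hc
  have hcong : algebraMap R A r' - b ∈ (S.map (algebraMap R A)).radical := by
    have e1 : algebraMap R A r' - b = ∑ h : G, (h • c) * (h • b - b) + algebraMap R A (r₀ - 1) * b := by
      rw [hr', map_sub, hc, map_one]
      have e2 : ∑ h : G, (h • c) * (h • b - b) = ∑ h : G, h • (c * b) - (∑ h : G, h • c) * b := by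
        rw [Finset.sum_mul, ← Finset.sum_sub_distrib]
        refine Finset.sum_congr rfl fun h _ => ?_
        rw [smul_mul']
        ring
      rw [e2]
      ring
    rw [e1]
    refine Ideal.add_mem _ (Ideal.sum_mem _ fun h _ => Ideal.mul_mem_left _ _ (hdiff h)) ?_
    exact Ideal.mul_mem_right _ _ (Ideal.le_radical (Ideal.mem_map_of_mem _ hr₀))
  have hfin : r - s * r' ∈ S := by
    apply h3
    have e1 : algebraMap R A (r - s * r') = i - algebraMap R A s * (algebraMap R A r' - b) := by
      rw [map_sub, map_mul, ← hbs]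
      ring
    rw [e1]
    exact Ideal.sub_mem _ hi (Ideal.mul_mem_left _ _ hcong)
  refine ⟨Ideal.Quotient.mk S r', ?_⟩
  have hs' : algebraMap (R ⧸ S) (FractionRing (R ⧸ S)) (Ideal.Quotient.mk S s) ≠ 0 := by
    intro h0
    exact hsb0 ((IsFractionRing.injective (R ⧸ S) (FractionRing (R ⧸ S))) (h0.trans (map_zero _).symm))
  rw [← hxe, eq_div_iff hs', ← map_mul, ← map_mul]
  congr 1
  rw [eq_comm, Ideal.Quotient.eq, mul_comm r' s]
  exact hfin

end Pool.Agent.QS
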