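import Pool.Agent.helper4.QS.Spec

/-!
# EX2: the example at two sites
-/

open scoped BigOperators ComplexOrder ComplexConjugate Topology

namespace Pool.Agent.QS

open Pool.Agent.helper86.CM Filter

noncomputable section

namespace EX2aux

theorem prod_Icc_one (g : ℕ → ℝ) (m : ℕ) :
    ∏ d ∈ Finset.Icc 1 m, g d = ∏ x ∈ Finset.range m, g (x + 1) := by
  induction m with
  | zero => simp
  | succ n ih =>
    rw [Finset.prod_range_succ, ← ih, Finset.prod_Icc_succ_top (by omega)]

/-- The coefficients. -/
def gam (i e j : ℕ) : ℤ := (if j = i + e then 1 else 0) - (if j = i then 1 else 0)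

theorem gam_abs (i e : ℕ) (he : 1 ≤ e) (j : ℕ) : |gam i e j| ≤ 1 := by
  unfold gam
  by_cases h1 : j = i + e
  · have h2 : j ≠ i := by omega
    simp [h1]
    split_ifs <;> simp
  · by_cases h2 : j = i
    · simp [h2]
      split_ifs <;> simp
    · simp [h1, h2]

theorem site_sum (B : Lat 1 ≃ₗ[ℤ] Lat 1) (b : Lat 1) (s J i e : ℕ) (hJ : i + e < J) :
    ∑ m ∈ Finset.range J, siteI B s m ((gam i e m • b, 0) : PP) =
      (pw B ((s * (i + e) : ℕ) : ℤ) b - pw B ((s * i : ℕ) : ℤ) b, 0) := by
  have h1 : ∀ m ∈ Finset.range J, siteI B s m ((gam i e m • b, 0) : PP) =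
      ((if m = i + e then pw B ((s * m : ℕ) : ℤ) b else 0) -
        (if m = i then pw B ((s * m : ℕ) : ℤ) b else 0), 0) := by
    intro m _
    rw [siteI_apply]
    refine Prod.ext ?_ ?_
    · simp only
      rw [pw_smul]
      unfold gam
      rw [sub_smul]
      congr 1
      · split_ifs <;> simp
      · split_ifs <;> simp
    · simp
  rw [Finset.sum_congr rfl h1]
  refine Prod.ext ?_ ?_
  · rw [Prod.fst_sum]
    simp only
    rw [Finset.sum_sub_distrib, Finset.sum_ite_eq', Finset.sum_ite_eq',
      if_pos (Finset.mem_range.2 hJ), if_pos (Finset.mem_range.2 (by omega : i < J))]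
  · rw [Prod.snd_sum]
    simp

theorem inner_sum (x : ℝ) (s i e j : ℕ) :
    ∑ m ∈ Finset.range j, (gam i e m : ℝ) * x ^ (s * (j - m)) =
      (if i + e < j then x ^ (s * (j - (i + e))) else 0) -
        (if i < j then x ^ (s * (j - i)) else 0) := by
  have h1 : ∀ m ∈ Finset.range j, (gam i e m : ℝ) * x ^ (s * (j - m)) =
      (if m = i + e then x ^ (s * (j - m)) else 0) - (if m = i then x ^ (s * (j - m)) else 0) := by
    intro m _
    unfold gam
    push_cast
    rw [sub_mul]
    congr 1
    · split_ifs <;> simp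
    · split_ifs <;> simp
  rw [Finset.sum_congr rfl h1, Finset.sum_sub_distrib, Finset.sum_ite_eq', Finset.sum_ite_eq']
  simp only [Finset.mem_range]

end EX2aux

open EX2aux in
theorem EX2 (hE : EXE_stmt) : EX2_stmt := by
  intro B t hB b hb s J i e hs he hJ
  have h1 := hE B t hB b hb s J hs (gam i e) (gam_abs i e he)
  rw [site_sum B b s J i e hJ] at h1
  rw [h1]
  set q : ℝ := (omega b (B b) : ℝ) with hq
  set x : ℝ := (lam t)⁻¹ with hx
  -- the factors as real numbers
  have h2 : ∀ j ∈ Finset.range J, (if gam i e j = 0 then ((3 / 4 + 1 / 4 * Real.cos (2 * Real.pi *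
      q * ∑ m ∈ Finset.range j, (gam i e m : ℝ) * x ^ (s * (j - m))) : ℝ) : ℂ) else 1 / 2) =
      (((if j = i + e ∨ j = i then 1 / 2 else 3 / 4 + 1 / 4 * Real.cos (2 * Real.pi * q *
        ((if i + e < j then x ^ (s * (j - (i + e))) else 0) -
        (if i < j then x ^ (s * (j - i)) else 0)))) : ℝ) : ℂ) := by
    intro j _
    rw [inner_sum]
    by_cases h1 : j = i + e
    · have h2 : j ≠ i := by omega
      rw [if_neg, if_pos (Or.inl h1)]
      · push_cast; rfl
      · unfold gam
        rw [if_pos h1, if_neg h2]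
        norm_num
    · by_cases h2 : j = i
      · rw [if_neg, if_pos (Or.inr h2)]
        · push_cast; rfl
        · unfold gam
          rw [if_neg h1, if_pos h2]
          norm_num
      · have h3 : gam i e j = 0 := by
          unfold gam
          rw [if_neg h1, if_neg h2]
          norm_num
        have h4 : ¬ (j = i + e ∨ j = i) := by
          rintro (h | h)
          · exact h1 h
          · exact h2 h
        rw [if_pos h3, if_neg h4]
  rw [Finset.prod_congr rfl h2, ← Complex.ofReal_prod]
  congr 1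
  set f : ℕ → ℝ := fun j => if j = i + e ∨ j = i then 1 / 2 else 3 / 4 + 1 / 4 * Real.cos (2 *
    Real.pi * q * ((if i + e < j then x ^ (s * (j - (i + e))) else 0) -
        (if i < j then x ^ (s * (j - i)) else 0))) with hf
  have hJ' : J = i + 1 + (e - 1) + 1 + (J - 1 - (i + e)) := by omega
  have h3 : ∏ j ∈ Finset.range J, f j = (∏ j ∈ Finset.range i, f j) * f i *
      (∏ j ∈ Finset.range (e - 1), f (i + 1 + j)) * f (i + e) *
      ∏ j ∈ Finset.range (J - 1 - (i + e)), f (i + e + 1 + j) := by
    conv_lhs => rw [hJ']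
    rw [Finset.prod_range_add, Finset.prod_range_succ, Finset.prod_range_add,
      Finset.prod_range_succ]
    have e1 : i + 1 + (e - 1) = i + e := by omega
    rw [e1]
  rw [h3]
  have h4 : ∏ j ∈ Finset.range i, f j = 1 := by
    refine Finset.prod_eq_one fun j hj => ?_
    have hj' := Finset.mem_range.1 hj
    simp only [hf]
    rw [if_neg (by omega), if_neg (by omega), if_neg (by omega)]
    simp
    norm_num
  have h5 : f i = 1 / 2 := by simp [hf]
  have h6 : f (i + e) = 1 / 2 := by simp [hf]
  have h7 : ∏ j ∈ Finset.range (e - 1), f (i + 1 + j) = ∏ d ∈ Finset.Icc 1 (e - 1), kap q x s d := by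
    rw [prod_Icc_one]
    refine Finset.prod_congr rfl fun j hj => ?_
    have hj' := Finset.mem_range.1 hj
    simp only [hf, kap]
    rw [if_neg (by omega), if_neg (by omega), if_pos (by omega)]
    have e1 : i + 1 + j - i = j + 1 := by omega
    rw [e1, zero_sub, mul_neg, Real.cos_neg]
  have h8 : ∏ j ∈ Finset.range (J - 1 - (i + e)), f (i + e + 1 + j) =
      ∏ d ∈ Finset.Icc 1 (J - 1 - (i + e)), kap2 q x s e d := by
    rw [prod_Icc_one]
    refine Finset.prod_congr rfl fun j _ => ?_
    simp only [hf, kap2]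
    rw [if_neg (by omega), if_pos (by omega), if_pos (by omega)]
    have e1 : i + e + 1 + j - (i + e) = j + 1 := by omega
    have e2 : i + e + 1 + j - i = j + 1 + e := by omega
    rw [e1, e2]
  rw [h4, h5, h6, h7, h8]
  ring

end

end Pool.Agent.QS
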