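import Pool.Agent.helper32.QS.Spec

set_option autoImplicit false

namespace QS

open scoped BigOperators commutatorElement

theorem HEIb_seq {P : Type} [Group P] [Group.IsNilpotent P] (y x : P) :
    ∃ n : ℕ, (fun b : P => ⁅y, b⁆)^[n] x = 1 := by
  obtain ⟨n, hn⟩ := Subgroup.nilpotent_iff_lowerCentralSeries.1
    (inferInstance : Group.IsNilpotent P)
  have key : ∀ i : ℕ, (fun b : P => ⁅y, b⁆)^[i] x ∈ (⊤ : Subgroup P).lowerCentralSeries i := by
    intro i
    induction i with
    | zero => simp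
    | succ i ih =>
      rw [Function.iterate_succ_apply', Subgroup.lowerCentralSeries_succ, Subgroup.commutator_comm]
      exact Subgroup.commutator_mem_commutator (Subgroup.mem_top y) ih
  refine ⟨n, ?_⟩
  have := key n
  rw [hn] at this
  exact Subgroup.mem_bot.1 this

theorem HEIb_main (p : ℕ) (hp : p.Prime) : ∀ n : ℕ, ∀ (P : Type) [Group P] [Finite P],
    Nat.card P = n → IsPGroup p P →
    (∀ x y : P, ¬ Heis p x y) → ∀ x y : P, x ^ p = 1 → y ^ p = 1 → x * y = y * x := by
  have hfact : Fact p.Prime := ⟨hp⟩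
  intro n
  induction n using Nat.strong_induction_on with
  | _ n ih =>
  intro P _ _ hcard hP hH x y hx hy
  by_contra hxy
  have hnil : Group.IsNilpotent P := hP.isNilpotent
  -- a maximal subgroup containing x
  have hne : Subgroup.zpowers x ≠ ⊤ := by
    intro h
    have hy' : y ∈ Subgroup.zpowers x := by rw [h]; trivial
    obtain ⟨k, hk⟩ := Subgroup.mem_zpowers_iff.1 hy'
    apply hxy
    rw [← hk]
    exact (Commute.refl x).zpow_right k
  obtain ⟨M, hM, hxM'⟩ := (IsCoatomic.eq_top_or_exists_le_coatom (Subgroup.zpowers x)).resolve_left hne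
  have hMn : M.Normal :=
    Subgroup.NormalizerCondition.normal_of_coatom M Group.normalizerCondition_of_isNilpotent hM
  have hxM : x ∈ M := hxM' (Subgroup.mem_zpowers x)
  have hMc : Nat.card M < n := by
    rw [← hcard]
    by_contra hge
    push Not at hge
    exact hM.1 (Subgroup.eq_top_of_le_card M hge)
  have hcomm : ∀ a ∈ M, ∀ b ∈ M, a ^ p = 1 → b ^ p = 1 → a * b = b * a := by
    intro a ha b hb hap hbp
    have := ih (Nat.card M) hMc M rfl (hP.to_subgroup M) (by
      intro u v huv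
      apply hH u v
      obtain ⟨h1, h2, h3, h4, h5⟩ := huv
      have hc : ((⁅u, v⁆ : M) : P) = ⁅(u : P), (v : P)⁆ := by
        simp [commutatorElement_def]
      refine ⟨by simpa using congrArg Subtype.val h1, by simpa using congrArg Subtype.val h2, ?_,
        ?_, ?_⟩
      · intro h
        apply h3
        apply Subtype.ext
        rw [hc, h]
        rfl
      · rw [← hc]
        exact congrArg Subtype.val h4
      · rw [← hc]
        exact congrArg Subtype.val h5
      ) ⟨a, ha⟩ ⟨b, hb⟩ (Subtype.ext (by simpa using hap)) (Subtype.ext (by simpa using hbp))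
    simpa using congrArg Subtype.val this
  -- the sequence
  have hR : ∀ b : P, b ∈ M → b ^ p = 1 → ⁅y, b⁆ ∈ M ∧ ⁅y, b⁆ ^ p = 1 := by
    intro b hb hbp
    have h1 : y * b * y⁻¹ ∈ M := hMn.conj_mem b hb y
    have h2 : (y * b * y⁻¹) ^ p = 1 := by rw [conj_pow, hbp]; simp
    have h3 : b⁻¹ ∈ M := M.inv_mem hb
    have h4 : b⁻¹ ^ p = 1 := by rw [inv_pow, hbp, inv_one]
    have h5 : ⁅y, b⁆ = (y * b * y⁻¹) * b⁻¹ := by rw [commutatorElement_def]
    rw [h5]
    refine ⟨M.mul_mem h1 h3, ?_⟩
    have h6 : Commute (y * b * y⁻¹) b⁻¹ := hcomm _ h1 _ h3 h2 h4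
    rw [h6.mul_pow, h2, h4, one_mul]
  have hRn : ∀ i : ℕ, (fun b : P => ⁅y, b⁆)^[i] x ∈ M ∧ ((fun b : P => ⁅y, b⁆)^[i] x) ^ p = 1 := by
    intro i
    induction i with
    | zero => exact ⟨hxM, hx⟩
    | succ i ih2 =>
      rw [Function.iterate_succ_apply']
      exact hR _ ih2.1 ih2.2
  classical
  have hex := HEIb_seq y x
  have hspec := Nat.find_spec hex
  have hmin := fun m (hm : m < Nat.find hex) => Nat.find_min hex hm
  set m := Nat.find hex with hmdef
  have hx1 : x ≠ 1 := by
    rintro rfl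
    exact hxy (by simp)
  have hyx : ⁅y, x⁆ ≠ 1 := by
    intro h
    rw [commutatorElement_eq_one_iff_mul_comm] at h
    exact hxy h.symm
  obtain ⟨k, hk⟩ : ∃ k, m = k + 2 := by
    rcases Nat.lt_or_ge m 2 with h | h
    · exfalso
      interval_cases hm' : m
      · exact hx1 hspec
      · exact hyx hspec
    · exact ⟨m - 2, by omega⟩
  rw [hk] at hspec hmin
  have h1 : (fun b : P => ⁅y, b⁆)^[k + 1] x ≠ 1 := hmin (k + 1) (by omega)
  rw [Function.iterate_succ_apply'] at h1 hspec
  rw [Function.iterate_succ_apply'] at hspec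
  set a := (fun b : P => ⁅y, b⁆)^[k] x with ha
  obtain ⟨haM, hap⟩ : a ∈ M ∧ a ^ p = 1 := hRn k
  obtain ⟨hcM, hcp⟩ := hR a haM hap
  apply hH y a
  refine ⟨hy, hap, h1, ?_, ?_⟩
  · have : ⁅y, ⁅y, a⁆⁆ = 1 := hspec
    rw [commutatorElement_eq_one_iff_mul_comm] at this
    exact this.symm
  · exact hcomm _ hcM _ haM hcp hap

theorem HEIb : HEI_stmt := fun P _ _ p hp hP hH x y hx hy =>
  HEIb_main p hp (Nat.card P) P rfl hP hH x y hx hy

end QS
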