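import Pool.Agent.helper32.QS.Spec

set_option autoImplicit false

open scoped BigOperators commutatorElement

namespace QS

theorem MAIN_comm_pow {G : Type} [Group G] (p : ℕ) (x y : G) (hx : x ^ p = 1)
    (h : ⁅x, y⁆ * x = x * ⁅x, y⁆) : ⁅x, y⁆ ^ p = 1 := by
  -- y x⁻¹ y⁻¹ = x⁻¹ ⁅x,y⁆
  have h1 : ∀ n : ℕ, y * x⁻¹ ^ n * y⁻¹ = x⁻¹ ^ n * ⁅x, y⁆ ^ n := by
    have hc : Commute ⁅x, y⁆ x⁻¹ := (show Commute ⁅x, y⁆ x from h).inv_right
    intro n
    induction n with
    | zero => simp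
    | succ n ih =>
      have h2 : y * x⁻¹ * y⁻¹ = x⁻¹ * ⁅x, y⁆ := by
        rw [commutatorElement_def]; group
      calc y * x⁻¹ ^ (n + 1) * y⁻¹ = (y * x⁻¹ ^ n * y⁻¹) * (y * x⁻¹ * y⁻¹) := by
            rw [pow_succ]; group
        _ = x⁻¹ ^ n * ⁅x, y⁆ ^ n * (x⁻¹ * ⁅x, y⁆) := by rw [ih, h2]
        _ = x⁻¹ ^ n * (⁅x, y⁆ ^ n * x⁻¹) * ⁅x, y⁆ := by group
        _ = x⁻¹ ^ n * (x⁻¹ * ⁅x, y⁆ ^ n) * ⁅x, y⁆ := by rw [(hc.pow_left n).eq]
        _ = x⁻¹ ^ (n + 1) * ⁅x, y⁆ ^ (n + 1) := by rw [pow_succ, pow_succ]; group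
  have h3 := h1 p
  rw [inv_pow, hx] at h3
  simpa using h3.symm

theorem MAIN (hCOI : COI_stmt) (hCEN : CEN_stmt) (hTRF : TRF_stmt) (hCNE : CNE_stmt)
    (hRED : RED_stmt) (hGVN : GVN_stmt) : MAIN_stmt := by
  intro G _ _ p hp hp5
  -- strong induction on the order
  suffices h : ∀ n : ℕ, ∀ (G : Type) [Group G] [Finite G], Nat.card G = n → Group.IsSolvable G →
      (∀ P : Subgroup G, P.Normal → IsPGroup p P → P = ⊥) → ∃ g : G, Lef G p g ≠ 0 by
    intro hs hO
    exact h _ G rfl hs hO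
  intro n
  induction n using Nat.strong_induction_on with
  | _ n ih =>
  intro G _ _ hn hs hO
  by_contra hcon
  have hL : ∀ g : G, Lef G p g = 0 := by
    intro g
    by_contra h
    exact hcon ⟨g, h⟩
  have := hs
  have hV : ∀ V : Subgroup G, V.Normal → V ≠ ⊥ → ¬ p ∣ Nat.card V →
      ∃ W : Subgroup G, W.Normal ∧ V < W ∧ ∃ r : ℕ, V.relIndex W = p ^ r := by
    intro V hVn hVb hpV
    have := hVn
    have hq : ∀ g : G ⧸ V, Lef (G ⧸ V) p g = 0 := by
      intro g
      obtain ⟨g, rfl⟩ := QuotientGroup.mk_surjective g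
      have h1 := hCOI G p hp V hpV g
      simp only [hL, finsum_zero] at h1
      have h2 : (Nat.card V : ℤ) ≠ 0 := by
        have := Nat.card_pos (α := V)
        exact_mod_cast this.ne'
      rcases mul_eq_zero.1 h1.symm with h | h
      · exact absurd h h2
      · exact h
    have hcard : Nat.card (G ⧸ V) < n := by
      have h1 : Nat.card G = Nat.card (G ⧸ V) * Nat.card V := Subgroup.card_eq_card_quotient_mul_card_subgroup V
      have h2 : 1 < Nat.card V := by
        rw [Subgroup.one_lt_card_iff_ne_bot]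
        exact hVb
      have h3 : 0 < Nat.card (G ⧸ V) := Nat.card_pos
      rw [← hn, h1]
      nlinarith
    have hex : ¬ ∀ P : Subgroup (G ⧸ V), P.Normal → IsPGroup p P → P = ⊥ := by
      intro hall
      obtain ⟨g, hg⟩ := ih _ hcard (G ⧸ V) rfl inferInstance hall
      exact hg (hq g)
    push Not at hex
    obtain ⟨P, hPn, hPp, hPb⟩ := hex
    have := hPn
    refine ⟨P.comap (QuotientGroup.mk' V), inferInstance, ?_, ?_⟩
    · have hle : V ≤ P.comap (QuotientGroup.mk' V) := by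
        intro v hv
        rw [Subgroup.mem_comap]
        have : QuotientGroup.mk' V v = 1 := (QuotientGroup.eq_one_iff v).2 hv
        rw [this]
        exact P.one_mem
      refine lt_of_le_of_ne hle ?_
      intro h
      apply hPb
      rw [eq_bot_iff]
      intro x hx
      obtain ⟨g, rfl⟩ := QuotientGroup.mk_surjective x
      have : g ∈ V := by
        rw [h, Subgroup.mem_comap]
        exact hx
      rw [Subgroup.mem_bot]
      exact (QuotientGroup.eq_one_iff g).2 this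
    · have : Fact p.Prime := ⟨hp⟩
      obtain ⟨r, hr⟩ := IsPGroup.iff_card.1 hPp
      refine ⟨r, ?_⟩
      rw [← hr]
      have hVbot : V = (⊥ : Subgroup (G ⧸ V)).comap (QuotientGroup.mk' V) := by
        rw [MonoidHom.comap_bot, QuotientGroup.ker_mk']
      have h1 : V.relIndex (P.comap (QuotientGroup.mk' V)) =
          ((⊥ : Subgroup (G ⧸ V)).comap (QuotientGroup.mk' V)).relIndex
            (P.comap (QuotientGroup.mk' V)) := by
        rw [← hVbot]
      rw [h1, Subgroup.relIndex_comap, Subgroup.map_comap_eq_self_of_surjective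
        (QuotientGroup.mk'_surjective V), Subgroup.relIndex_bot_left]
  obtain ⟨N, hNn, hNc, hpN, hNs, hNM⟩ := hRED G p hp hs hO hV
  obtain ⟨g, hgN, hg⟩ := hGVN G p hp hp5 hs N hNn hNc hpN hNM
  set G₁ : Subgroup G := Subgroup.centralizer ({g} : Set G) with hG₁
  have hmem : ∀ x : G, x ∈ G₁ ↔ x * g = g * x := by
    intro x
    rw [hG₁, Subgroup.mem_centralizer_iff]
    constructor
    · intro h
      exact (h g rfl).symm
    · intro h y hy
      rw [Set.mem_singleton_iff] at hy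
      rw [hy, h]
  have hNG : N ≤ G₁ := fun x hx => (hmem x).2 (hNc x hx g hgN)
  have h0 : chi p (⊤ : Subgroup G₁) ≠ 0 := by
    refine hCNE G₁ p hp (by omega) inferInstance ?_ (N.subgroupOf G₁) inferInstance ?_ ?_
    · rintro ⟨x, hx⟩ ⟨y, hy⟩ ⟨h1, h2, h3, h4, h5⟩
      have e1 : x ^ p = 1 := congrArg Subtype.val h1
      have e2 : y ^ p = 1 := congrArg Subtype.val h2
      have e4 : ⁅x, y⁆ * x = x * ⁅x, y⁆ := congrArg Subtype.val h4
      have e5 : ⁅x, y⁆ * y = y * ⁅x, y⁆ := congrArg Subtype.val h5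
      have e3 : ⁅x, y⁆ ≠ 1 := fun h => h3 (Subtype.ext h)
      have hH : Heis p x y := ⟨e1, e2, e3, e4, e5⟩
      have hz := hg x y hH ((hmem x).1 hx) ((hmem y).1 hy)
      have hzN := hNs _ hz
      have hzp := MAIN_comm_pow p x y e1 e4
      apply e3
      have hord : orderOf ⁅x, y⁆ ∣ Nat.card N := by
        have := orderOf_dvd_natCard (⟨⁅x, y⁆, hzN⟩ : N)
        rwa [Subgroup.orderOf_mk] at this
      rcases (Nat.dvd_prime hp).1 (orderOf_dvd_of_pow_eq_one hzp) with h | h
      · exact orderOf_eq_one_iff.1 h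
      · rw [h] at hord
        exact absurd hord hpN
    · have : Nat.card (N.subgroupOf G₁) = Nat.card N :=
        Nat.card_congr (Subgroup.subgroupOfEquivOfLe hNG).toEquiv
      rw [this]
      exact hpN
    · rintro ⟨x, hx⟩ h
      rw [Subgroup.mem_subgroupOf]
      apply hNs
      intro y hy
      have := h ⟨y, hNG hy⟩ (by rw [Subgroup.mem_subgroupOf]; exact hy)
      exact congrArg Subtype.val this
  apply h0
  rw [← hTRF G p G₁, ← hCEN G p hp N hNn hpN g hgN]
  exact hL g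

end QS
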