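import Pool.Agent.helper32.QS.Spec
import Pool.Agent.helper32.QS.C6b
import Pool.Agent.helper87.QS.CEN
import Pool.Agent.helper85.QSL.CH1
import Pool.Agent.helper21.QS.FIN
import Pool.Agent.helper23.QS.FS1
import Pool.Agent.helper25.QS.GLO
import Pool.Agent.helper32.QS.HEIb
import Pool.Agent.helper26.QS.HOM
import Pool.Agent.helper26.QS.K2
import Pool.Agent.helper26.QS.K3
import Pool.Agent.helper87.QS.KF
import Pool.Agent.helper6.QS.KST
import Pool.Agent.helper97.QS.LF1
import Pool.Agent.helper29.QS.LI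
import Pool.Agent.helper42.QS.NC7
import Pool.Agent.helper30.QS.NII
import Pool.Agent.helper15.QS.NIa
import Pool.Agent.helper99.QS.NIb1
import Pool.Agent.helper1.QS.NIb2
import Pool.Agent.helper11.QS.NQL
import Pool.Agent.helper70.QS.OMG
import Pool.Agent.helper26.QS.PK
import Pool.Agent.helper78.QS.PN
import Pool.Agent.helper18.QS.PNU
import Pool.Agent.helper28.QS.PR1
import Pool.Agent.helper77.QS.PR2
import Pool.Agent.helper59.QS.PRA
import Pool.Agent.helper30.QS.PRB
import Pool.Agent.helper24.QS.PRI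
import Pool.Agent.helper78.QS.PSB
import Pool.Agent.helper66.QS.PSI
import Pool.Agent.helper31.QS.QPR
import Pool.Agent.helper37.QS.RED
import Pool.Agent.helper78.QS.TRF
import Pool.Agent.helper49.QS.XC
import Pool.Agent.helper19.QS.YA
import Pool.Agent.helper16.QS.CA
import Pool.Agent.helper65.QS.COI
import Pool.Agent.helper25.QS.DU
import Pool.Agent.helper76.QS.ES
import Pool.Agent.helper3.QS.FIT
import Pool.Agent.helper51.QS.FS2
import Pool.Agent.helper13.QS.FS4
import Pool.Agent.helper32.QS.HH1b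
import Pool.Agent.helper55.QS.HH2
import Pool.Agent.helper95.QS.HH3
import Pool.Agent.helper33.QS.PERM
import Pool.Agent.helper58.QS.POS
import Pool.Agent.helper50.QS.SQ
import Pool.Agent.helper71.QS.C7
import Pool.Agent.helper8.QS.CH
import Pool.Agent.helper12.QS.CNE
import Pool.Agent.helper73.QS.IMP
import Pool.Agent.helper25.QS.SUM
import Pool.Agent.helper57.QS.YB
import Pool.Agent.helper93.QS.CII
import Pool.Agent.helper41.QS.CIa
import Pool.Agent.helper38.QS.CIb
import Pool.Agent.helper70.QS.TOC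
import Pool.Agent.helper57.QS.TWO
import Pool.Agent.helper23.QS.GVN
import Pool.Agent.helper32.QS.MAIN

/-! Assembly of the modules of the project QS (MP_e82547_al, solvable groups). -/

set_option autoImplicit false

namespace QS

theorem fC6 : C6_stmt := C6b
theorem fCEN : CEN_stmt := CEN
theorem fCH1 : CH1_stmt := CH1
theorem fFIN : FIN_stmt := FIN
theorem fFS1 : FS1_stmt := FS1
theorem fGLO : GLO_stmt := GLO
theorem fHEI : HEI_stmt := HEIb
theorem fHOM : HOM_stmt := HOM
theorem fK2 : K2_stmt := K2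
theorem fK3 : K3_stmt := K3
theorem fKF : KF_stmt := KF
theorem fKST : KST_stmt := KST
theorem fLF1 : LF1_stmt := LF1
theorem fLI : LI_stmt := LI
theorem fNC7 : NC7_stmt := NC7
theorem fNII : NII_stmt := NII
theorem fNIa : NIa_stmt := NIa
theorem fNIb1 : NIb1_stmt := NIb1
theorem fNIb2 : NIb2_stmt := NIb2
theorem fNQL : NQL_stmt := NQL
theorem fOMG : OMG_stmt := OMG
theorem fPK : PK_stmt := PK fK3
theorem fPN : PN_stmt := PN
theorem fPNU : PNU_stmt := PNU
theorem fPR1 : PR1_stmt := PR1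
theorem fPR2 : PR2_stmt := PR2
theorem fPRA : PRA_stmt := PRA
theorem fPRB : PRB_stmt := PRB fPR2
theorem fPRI : PRI_stmt := PRI fPR1 fPRA fPRB fPNU
theorem fPSB : PSB_stmt := PSB
theorem fPSI : PSI_stmt := PSI
theorem fQPR : QPR_stmt := QPR
theorem fRED : RED_stmt := RED fNQL
theorem fTRF : TRF_stmt := TRF
theorem fXC : XC_stmt := XC
theorem fYA : YA_stmt := YA fC6
theorem fCA : CA_stmt := CA fK2 fK3
theorem fCOI : COI_stmt := COI fLF1
theorem fDU : DU_stmt := DU fK2 fK3 fHOM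
theorem fES : ES_stmt := ES fK2 fK3 fHOM
theorem fFIT : FIT_stmt := FIT fNQL
theorem fFS2 : FS2_stmt := FS2 fK2 fFS1
theorem fFS4 : FS4_stmt := FS4 fK3 fFS1
theorem fHH1 : HH1_stmt := HH1b fNQL
theorem fHH2 : HH2_stmt := HH2 fHH1 fOMG
theorem fHH3 : HH3_stmt := HH3 fHEI fHH2
theorem fPERM : PERM_stmt := PERM fPRI
theorem fPOS : POS_stmt := POS fPSB fPSI fKST
theorem fSQ : SQ_stmt := SQ fDU
theorem fC7 : C7_stmt := C7 fC6 fFIT fGLO fNC7
theorem fCH : CH_stmt := CH fCH1 fDU fK2 fK3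
theorem fCNE : CNE_stmt := CNE fHH3 fPOS
theorem fIMP : IMP_stmt := IMP fPERM
theorem fSUM : SUM_stmt := SUM fK2 fK3 fSQ fPK fLI fCH
theorem fYB : YB_stmt := YB fC7
theorem fCII : CII_stmt := CII fK2 fK3 fFS2 fFS4 fYA fYB fSUM fPK fNII fFIN
theorem fCIa : CIa_stmt := CIa fK3 fFS4 fSUM fNIa fFIN
theorem fCIb : CIb_stmt := CIb fK3 fXC fPN fSUM fNIb1 fNIb2 fFIN
theorem fTOC : TOC_stmt := TOC fCA fES fCIa fCIb fCII
theorem fTWO : TWO_stmt := TWO fIMP fQPR fKF fTOC
theorem fGVN : GVN_stmt := GVN fTWO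
theorem fMAIN : MAIN_stmt := MAIN fCOI fCEN fTRF fCNE fRED fGVN

end QS
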