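import Pool.Agent.helper32.QS.Spec

set_option autoImplicit false

namespace QS

open scoped BigOperators commutatorElement

theorem HH1b (hNQL : NQL_stmt) : HH1_stmt := by
  intro G _ _ p hp hG hN
  have hfact : Fact p.Prime := ⟨hp⟩
  obtain ⟨Q, hQmax⟩ := Set.Finite.exists_maximal
    (s := {Q : Subgroup G | Q.Normal ∧ IsPGroup p Q}) (Set.toFinite _)
    ⟨⊥, inferInstance, IsPGroup.of_bot⟩
  have hQn : Q.Normal := hQmax.prop.1
  have hQp : IsPGroup p Q := hQmax.prop.2
  have hle : ∀ P : Subgroup G, P.Normal → IsPGroup p P → P ≤ Q := by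
    intro P hP hPp
    have h1 : (P ⊔ Q).Normal := Subgroup.sup_normal P Q
    have h2 : IsPGroup p (P ⊔ Q : Subgroup G) := hPp.to_sup_of_normal_right hQp
    exact le_trans le_sup_left (hQmax.le_of_ge ⟨h1, h2⟩ le_sup_right)
  refine ⟨Q, hQn, hQp, hle, ?_⟩
  by_contra hcon
  push Not at hcon
  obtain ⟨x, hx, hxQ⟩ := hcon
  let C : Subgroup G := Subgroup.centralizer (Q : Set G)
  have hCn : C.Normal := Subgroup.normal_centralizer
  have hZn : (C ⊓ Q).Normal := Subgroup.normal_inf_normal C Q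
  have hxC : x ∈ C := by
    rw [Subgroup.mem_centralizer_iff]
    intro y hy
    exact (hx y hy).symm
  obtain ⟨l, Q', hl, hQ'n, hQ'l, hQ'C, hQ'Z, -⟩ := hNQL G hG (C ⊓ Q) C hZn hCn inf_le_left
    (by
      intro z hz c hc
      exact (Subgroup.mem_centralizer_iff.1 hc z hz.2))
    (fun h => hxQ (h hxC).2)
  by_cases hlp : l = p
  · subst hlp
    exact hQ'Z (le_inf hQ'C (hle Q' hQ'n hQ'l))
  · have : Fact l.Prime := ⟨hl⟩
    obtain ⟨m, hm⟩ := IsPGroup.iff_card.1 hQ'l
    have hnd : ¬ p ∣ Nat.card Q' := by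
      rw [hm]
      intro hd
      exact hlp ((Nat.prime_dvd_prime_iff_eq hp hl).1 (hp.dvd_of_dvd_pow hd)).symm
    have := hN Q' hQ'n hnd
    apply hQ'Z
    rw [this]
    exact bot_le

end QS
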