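import Mathlib

/-!
# QS: the Lefschetz form of the Quillen conjecture (MP_e82547_al) for all finite SOLVABLE groups and
all primes `p ≥ 5`

THEOREM. `G` finite solvable, `p ≥ 5` prime, no nontrivial normal `p`-subgroup. Then some `g ∈ G`
has nonzero reduced Euler characteristic of the poset of `g`-stable nontrivial elementary abelian
`p`-subgroups.

This file contains all definitions and all statements (`XX_stmt`) of the modules, with complete
proofs in the doc-strings. Every module file is `Pool/Agent/<seat>/QS/XX.lean`: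

  import Pool.Agent.helper32.QS.Spec
  namespace QS
  theorem XX (hYY : YY_stmt) ... : XX_stmt := ...

HYPOTHESES: any of the other statements `YY_stmt` of this file may be used as hypotheses
(no circles: the doc-string says which ones are used). Auxiliary lemmas are prefixed `XX_`.

OVERVIEW.
Part A (modules LF1 COI CEN TRF PSB PSI KST POS HEI OMG NQL HH1 HH2 HH3 CNE RED GVN MAIN): reduction
to the two-orbit theorem TWO for irreducible coprime modules of solvable groups. A Heisenberg pair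
is `x, y` with `x^p = y^p = 1`, `z = ⁅x, y⁆ ≠ 1` commuting with `x` and `y`.
If `N` is a self-centralising abelian normal `p'`-subgroup and `g ∈ N` is centralised by no
Heisenberg pair, then the Euler characteristic at `g` is nonzero (CEN, CNE). In a
minimal counterexample there is such an `N` which is completely reducible (COI, RED).
Part B (IMP QPR TWO PERM PR1 PR2 PRA PRB PNU PRI): imprimitive modules, by a lemma on subsets
of solvable permutation groups.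
Part C (all the other ones): primitive modules, by orbit counting.
-/

set_option autoImplicit false

namespace QS

open scoped BigOperators commutatorElement

/-! ## Definitions -/

/-- the chain sum of the frozen statement S03407 (literally) -/
noncomputable def Lef (G : Type) [Group G] (p : ℕ) (g : G) : ℤ :=
  ∑ᶠ (s : Finset (Subgroup G))
    (_ : IsChain (· ≤ ·) (s : Set (Subgroup G)) ∧
      ∀ E ∈ s, E ≠ ⊥ ∧ (∀ x ∈ E, ∀ y ∈ E, x * y = y * x) ∧
        (∀ x ∈ E, x ^ p = 1) ∧ (∀ x : G, x ∈ E ↔ g * x * g⁻¹ ∈ E)),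
    ((-1 : ℤ) ^ (s.card + 1))

/-- elementary abelian `p`-subgroup (possibly trivial) -/
def EAb {G : Type} [Group G] (p : ℕ) (E : Subgroup G) : Prop :=
  (∀ x ∈ E, ∀ y ∈ E, x * y = y * x) ∧ (∀ x ∈ E, x ^ p = 1)

/-- the chains of nontrivial elementary abelian `p`-subgroups contained in `X` -/
def Chn {G : Type} [Group G] (p : ℕ) (X : Subgroup G) : Set (Finset (Subgroup G)) :=
  {s | IsChain (· ≤ ·) (s : Set (Subgroup G)) ∧ ∀ E ∈ s, E ≠ ⊥ ∧ EAb p E ∧ E ≤ X}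

/-- the reduced Euler characteristic of the poset of nontrivial elementary abelian `p`-subgroups
contained in `X` -/
noncomputable def chi {G : Type} [Group G] (p : ℕ) (X : Subgroup G) : ℤ :=
  ∑ᶠ (s : Finset (Subgroup G)) (_ : s ∈ Chn p X), (-1 : ℤ) ^ (s.card + 1)

/-- Heisenberg pair -/
def Heis {G : Type} [Group G] (p : ℕ) (x y : G) : Prop :=
  x ^ p = 1 ∧ y ^ p = 1 ∧ ⁅x, y⁆ ≠ 1 ∧ ⁅x, y⁆ * x = x * ⁅x, y⁆ ∧ ⁅x, y⁆ * y = y * ⁅x, y⁆

/-- the vector `v` is fixed by no Heisenberg pair -/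
def Good (p : ℕ) (H : Type) {V : Type} [Group H] [MulAction H V] (v : V) : Prop :=
  ∀ x y : H, Heis p x y → x • v = v → y • v = v → False

/-- two good vectors in different orbits -/
def Two (p : ℕ) (H V : Type) [Group H] [MulAction H V] : Prop :=
  ∃ v w : V, Good p H v ∧ Good p H w ∧ ∀ h : H, h • v ≠ w

/-- irreducible action on an abelian group -/
def Irr (H V : Type) [Group H] [AddCommGroup V] [DistribMulAction H V] : Prop :=
  ∀ W : AddSubgroup V, (∀ (h : H), ∀ v ∈ W, h • v ∈ W) → W = ⊥ ∨ W = ⊤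

/-- faithful action -/
def Fai (H V : Type) [Group H] [MulAction H V] : Prop :=
  ∀ h : H, (∀ v : V, h • v = v) → h = 1

/-- imprimitive action: `V` is the direct sum of at least two nonzero subgroups permuted by `H` -/
def Impr (H V : Type) [Group H] [AddCommGroup V] [DistribMulAction H V] : Prop :=
  ∃ (ι : Type) (_ : Fintype ι) (W : ι → AddSubgroup V), 2 ≤ Fintype.card ι ∧ (∀ i, W i ≠ ⊥) ∧
    (∀ v : V, ∃ f : ι → V, (∀ i, f i ∈ W i) ∧ ∑ i, f i = v) ∧
    (∀ f : ι → V, (∀ i, f i ∈ W i) → ∑ i, f i = 0 → ∀ i, f i = 0) ∧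
    ∀ (h : H) (i : ι), ∃ j : ι, ∀ v : V, v ∈ W i ↔ h • v ∈ W j

/-- the subring of `End V` generated by a subgroup `A` of `H` -/
def RngOf (H V : Type) [Group H] [AddCommGroup V] [DistribMulAction H V] (A : Subgroup H) :
    Subring (AddMonoid.End V) :=
  Subring.closure ((fun a : H => DistribMulAction.toAddMonoidEnd H V a) '' (A : Set H))

/-- quasi-primitivity: for every abelian normal subgroup `A` of `H` the (commutative) ring generated
by `A` in `End V` is a field, in the form: each nonzero element is injective -/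
def QP (H V : Type) [Group H] [AddCommGroup V] [DistribMulAction H V] : Prop :=
  ∀ A : Subgroup H, A.Normal → (∀ a ∈ A, ∀ b ∈ A, a * b = b * a) →
    ∀ T ∈ RngOf H V A, T ≠ 0 → Function.Injective T

/-- the two-orbit theorem for all modules with fewer than `N` elements -/
def TwoFor (p N : ℕ) : Prop :=
  ∀ (V : Type) [AddCommGroup V] [Finite V] (H : Type) [Group H] [Finite H]
    [DistribMulAction H V], Nat.card V < N → Nontrivial V → Group.IsSolvable H → Fai H V → Irr H V →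
    ¬ p ∣ Nat.card V → Two p H V

/-- the conclusion of the permutation lemma: a subset `Δ` with `2 |Δ| ≠ |Ω|` such that every
`p`-element (modulo the kernel) stabilising `Δ` acts trivially -/
def PCon (p : ℕ) (S Ω : Type) [Group S] [MulAction S Ω] : Prop :=
  ∃ Δ : Set Ω, 2 * Δ.ncard ≠ Nat.card Ω ∧ ∀ x : S, (∀ ω : Ω, x ^ p • ω = ω) →
    (∀ ω ∈ Δ, x • ω ∈ Δ) → ∀ ω : Ω, x • ω = ω

/-- the number of fixed points of `x` -/
noncomputable def fx {S : Type} (Ω : Type) [Group S] [MulAction S Ω] (x : S) : ℕ :=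
  Nat.card {ω : Ω // x • ω = ω}

/-! ### Semilinear groups -/

section SL

variable (k U H : Type) [Field k] [AddCommGroup U] [Module k U] [Group H] [DistribMulAction H U]

/-- the elements of `H` acting on `U` as scalars from `k` -/
def SA : Subgroup H where
  carrier := {h | ∃ c : kˣ, ∀ u : U, h • u = (c : k) • u}
  one_mem' := ⟨1, fun u => by simp⟩
  mul_mem' := by
    rintro a b ⟨c, hc⟩ ⟨d, hd⟩
    exact ⟨c * d, fun u => by rw [mul_smul, hd, hc, Units.val_mul, mul_smul]⟩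
  inv_mem' := by
    rintro a ⟨c, hc⟩
    refine ⟨c⁻¹, fun u => ?_⟩
    rw [inv_smul_eq_iff, hc, smul_smul, Units.mul_inv, one_smul]

/-- the elements of `H` acting `k`-linearly on `U` -/
def SC : Subgroup H where
  carrier := {h | ∀ (c : k) (u : U), h • (c • u) = c • (h • u)}
  one_mem' := fun c u => by simp
  mul_mem' := by
    intro a b ha hb c u
    rw [mul_smul, hb, ha, mul_smul]
  inv_mem' := by
    intro a ha c u
    rw [inv_smul_eq_iff, ha, smul_inv_smul]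

/-- `H` is a solvable group acting faithfully and semilinearly on `U ≠ 0`, and
the scalars contained in `H` are a maximal abelian normal subgroup of `H` -/
structure SLD : Prop where
  nt : Nontrivial U
  faith : Fai H U
  semi : ∀ h : H, ∃ σ : k ≃+* k, ∀ (c : k) (u : U), h • (c • u) = σ c • (h • u)
  solv : Group.IsSolvable H
  maxi : ∀ B : Subgroup H, B.Normal → SA k U H ≤ B → (∀ x ∈ B, ∀ y ∈ B, x * y = y * x) →
    B ≤ SA k U H

/-- `Y / A` is a minimal normal subgroup of `H / A` contained in `S / A`, of exponent `ℓ` -/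
structure Mnr (S Y : Subgroup H) (ℓ : ℕ) : Prop where
  norm : Y.Normal
  hA : SA k U H ≤ Y
  ne : ¬ Y ≤ SA k U H
  hS : Y ≤ S
  mini : ∀ Z : Subgroup H, Z.Normal → SA k U H ≤ Z → Z ≤ Y → Z ≤ SA k U H ∨ Y ≤ Z
  prime : ℓ.Prime
  expo : ∀ y ∈ Y, y ^ ℓ ∈ SA k U H

/-- the properties of the subgroup `S` (product of all minimal normal subgroups of `H` modulo
the scalars `A` contained in the linear part `C`) -/
structure SSt (S : Subgroup H) : Prop where
  norm : S.Normal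
  hA : SA k U H ≤ S
  hC : S ≤ SC k U H
  ne : ¬ S ≤ SA k U H
  comm : ∀ x ∈ S, ∀ y ∈ S, ⁅x, y⁆ ∈ SA k U H
  cent : ∀ x ∈ S, (∀ y ∈ S, x * y = y * x) → x ∈ SA k U H
  self : ∀ c ∈ SC k U H, (∀ s ∈ S, ⁅c, s⁆ ∈ SA k U H) → c ∈ S
  gen : ∀ h : H, ¬ (∀ s ∈ S, ⁅h, s⁆ ∈ SA k U H) →
    ∃ (Y : Subgroup H) (ℓ : ℕ), Mnr k U H S Y ℓ ∧ ∃ y ∈ Y, ⁅h, y⁆ ∉ SA k U H

end SL

/-- number of prime factors with multiplicity -/
def Om (n : ℕ) : ℕ := n.primeFactorsList.length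

/-- the bound `(e² - 1) e^(2 Ω(e) + 1)` for `|C : A|` (`e² = |S : A|`) -/
def Bd (e : ℕ) : ℕ := (e ^ 2 - 1) * e ^ (2 * Om e + 1)

/-! ## Part A -/

/-- LF1. `V` a normal subgroup of order prime to `p`, `E'` an elementary abelian `p`-subgroup of
`G / V` stable under `g`. The number of pairs `(E, v)`, `E` an elementary abelian `p`-subgroup of
`G` with image `E'`, `v ∈ V`, with `g v` normalising `E`, is `|V|`.

PROOF. Let `L` be the preimage of `E'` in `G`, so `|L| = |V| |E'|`. The subgroups `E` with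
`EAb p E` and image `E'` are exactly the Sylow `p`-subgroups of `L` (an `E` with `EAb p E` is a
`p`-group, meets `V` trivially, so has order `|E'|` and is Sylow in `L`; a Sylow `p`-subgroup of `L`
meets `V` trivially and maps isomorphically onto `E'` since `|E'|` is a power of `p`).
`L = V E`, so by Sylow `V` acts transitively by conjugation on the set `𝓔` of these `E`
(nonempty). `g` normalises `L`
(as `g` stabilises `E'`), so it permutes `𝓔`. For `E ∈ 𝓔` the set of `v ∈ V` with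
`(g v) E (g v)⁻¹ = E`, i.e. `v E v⁻¹ = g⁻¹ E g ∈ 𝓔`, is nonempty and a coset of `N_V(E)`, so
has `|N_V(E)| = |V| / |𝓔|` elements. Summing over `E ∈ 𝓔` gives `|V|`. -/
def LF1_stmt : Prop :=
  ∀ (G : Type) [Group G] [Finite G] (p : ℕ), p.Prime → ∀ (V : Subgroup G) [V.Normal],
    ¬ p ∣ Nat.card V → ∀ (E' : Subgroup (G ⧸ V)), EAb p E' → ∀ g : G,
    (∀ x : G ⧸ V, x ∈ E' ↔ (g : G ⧸ V) * x * (g : G ⧸ V)⁻¹ ∈ E') →
    Nat.card {c : Subgroup G × V // EAb p c.1 ∧ c.1.map (QuotientGroup.mk' V) = E' ∧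
      ∀ x : G, x ∈ c.1 ↔ (g * (c.2 : G)) * x * (g * (c.2 : G))⁻¹ ∈ c.1} = Nat.card V

/-- COI (uses LF1). The sum of `Lef` over a coset of a normal `p'`-subgroup.

PROOF. Write `π : G → G / V`. For a chain `s` of nontrivial elementary abelian `p`-subgroups of `G`
the map `E ↦ π(E)` is injective and strictly monotone on `s` (`|π(E)| = |E|` as
`E ∩ V = 1`), so `π(s)` is a chain of the same cardinality of nontrivial elementary abelian
subgroups of `G / V`. If `s'` is a nonempty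
chain in `G / V` with largest member `T'`, then the chains `s` with `π(s) = s'` correspond
bijectively to the elementary abelian `E` with `π(E) = T'`: `s ↦` its largest member, with inverse
`E ↦ {E ∩ π⁻¹(F') : F' ∈ s'}` (a member `F ≤ E` of `s` is `E ∩ π⁻¹(π(F))` because `π` is injective
on `E`). For `h ∈ G`: `h` stabilises every member of `s` iff `h` stabilises the
largest member `E` of `s` and `π(h)` stabilises every member of `s'`. So for `g` fixed the number of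
pairs `(s, v)` with `π(s) = s'` and `g v` stabilising all members of `s` is, by LF1, `|V|` if `π(g)`
stabilises all members of `s'` and `0` otherwise (also for `s' = ∅`). Summing
`(-1)^(|s|+1) = (-1)^(|s'|+1)` over all pairs `(s, v)` with `g v` stabilising the members of `s`
gives both sides. -/
def COI_stmt : Prop :=
  ∀ (G : Type) [Group G] [Finite G] (p : ℕ), p.Prime → ∀ (V : Subgroup G) [V.Normal],
    ¬ p ∣ Nat.card V → ∀ g : G,
    ∑ᶠ v : V, Lef G p (g * (v : G)) = (Nat.card V : ℤ) * Lef (G ⧸ V) p (g : G ⧸ V)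

/-- CEN. For `g` in a normal `p'`-subgroup `N` the `g`-stable elementary abelian `p`-subgroups are
those centralised by `g`.

PROOF. If `E` is `g`-stable and `x ∈ E` then `g x g⁻¹ x⁻¹ ∈ E ∩ N` (`N` normal), which is trivial
since `E` has exponent `p` and `p ∤ |N|`. So `E ≤ C_G(g)`. The converse is clear, and the index
sets of the two sums agree. -/
def CEN_stmt : Prop :=
  ∀ (G : Type) [Group G] [Finite G] (p : ℕ), p.Prime → ∀ (N : Subgroup G), N.Normal →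
    ¬ p ∣ Nat.card N → ∀ g ∈ N, Lef G p g = chi p (Subgroup.centralizer ({g} : Set G))

/-- TRF. `chi p X` computed inside the group `X`.

PROOF. `F ↦ F.map X.subtype` is an order isomorphism from the subgroups of `X` onto the subgroups
of `G` contained in `X`, respecting `EAb`, `≠ ⊥`; so it induces a bijection of chains preserving
the cardinality. -/
def TRF_stmt : Prop :=
  ∀ (G : Type) [Group G] [Finite G] (p : ℕ) (X : Subgroup G),
    chi p X = chi p (⊤ : Subgroup X)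

/-- PSB. PROOF. If `E = ⊥` the only chain is `∅`, which contributes `-1`. If `E ≠ ⊥`
(elementary abelian) then all nontrivial subgroups of `E` are members of the poset, which
has the largest element `E`; the involution `s ↦ s Δ {E}` (insert or erase `E`) on `Chn p E` changes
the sign. -/
def PSB_stmt : Prop :=
  ∀ (G : Type) [Group G] [Finite G] (p : ℕ) (E : Subgroup G), EAb p E →
    (E = ⊥ → chi p E = -1) ∧ (E ≠ ⊥ → chi p E = 0)

/-- PSI (step formula).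

PROOF. `K₁ ⊴ K`, both normalised by `E`, `K ∩ E = 1` (orders). Let `m = |K : K₁|`.
`K₁ ⊔ H` is normalised by `K` and `E` (for `k ∈ K`, `e ∈ H`: `k e k⁻¹ = ⁅k, e⁆ e ∈ K₁ e`).
The left cosets of `X = K₁ E` in `K E` are represented by the `m` cosets `k K₁` (as
`K ∩ K₁ E = K₁`). Let `F ≤ K E` be an elementary abelian `p`-subgroup (or just a `p`-subgroup) and
count the cosets `k X` with `F ≤ k X k⁻¹`, i.e. the
fixed points of `F` on `K E / X`. There is one, since `F` is a `p`-group and `p ∤ m`. Conjugating by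
`k⁻¹` we may assume `F ≤ X`. An element `f = k₁ e ∈ F` (`k₁ ∈ K₁`, `e ∈ E`) maps `k X` to
`k₁ e k X = k₁ (e k e⁻¹) X`, which is `k X` iff `⁅e, k⁆ ∈ K₁` (`K₁` is normal in `K`). If `e ∈ H`
this always holds; if `e ∉ H` it holds only for `k ∈ K₁`. So the number of
cosets is `m` if `F ≤ K₁ H` and `1` otherwise (for `F` not assumed to be in `X` too, `K₁ H` being
normal in `K E`). A chain `s` is contained in `k X k⁻¹` iff its largest member is (all, if `s = ∅`).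
Hence the sum over the `m` cosets of `chi p (k X k⁻¹)` equals
`chi p (K E) + (m - 1) chi p (K₁ H)`; and
`chi p (k X k⁻¹) = chi p X` (conjugation). -/
def PSI_stmt : Prop :=
  ∀ (G : Type) [Group G] [Finite G] (p : ℕ), p.Prime → ∀ (K K₁ E H : Subgroup G),
    K₁ ≤ K → ¬ p ∣ Nat.card K → EAb p E → H ≤ E →
    (∀ e ∈ E, ∀ a ∈ K, e * a * e⁻¹ ∈ K) → (∀ e ∈ E, ∀ a ∈ K₁, e * a * e⁻¹ ∈ K₁) →
    (∀ e ∈ K, ∀ a ∈ K₁, e * a * e⁻¹ ∈ K₁) →
    (∀ e ∈ H, ∀ a ∈ K, ⁅e, a⁆ ∈ K₁) →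
    (∀ e ∈ E, e ∉ H → ∀ a ∈ K, ⁅e, a⁆ ∈ K₁ → a ∈ K₁) →
    (K₁.relIndex K : ℤ) * chi p (K₁ ⊔ E) =
      chi p (K ⊔ E) + ((K₁.relIndex K : ℤ) - 1) * chi p (K₁ ⊔ H)

/-- KST (the next step in an `E`-invariant series).

PROOF. Let `K₁` be maximal among the proper subgroups of `K` which contain `⁅K, K⁆` and are
normalised by `E` (`⁅K, K⁆` is one, `K` being solvable and nontrivial); `K₁` is normal in `K`.
`M = K / K₁` is an abelian group `≠ 0` with `p ∤ |M|` on which `E` acts, irreducibly by maximality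
(an `E`-invariant subgroup of `K` containing `K₁` is `K₁` or `K`). Let
`H = {e ∈ E : ⁅e, a⁆ ∈ K₁ ∀ a ∈ K}` be the kernel. If `e ∈ E ∖ H`, then
`{a ∈ K : ⁅e, a⁆ ∈ K₁}` is a subgroup of `K` containing `K₁`, normalised by `E` since `E` is
abelian, and it is not `K`, so it is `K₁`: this is the last property.
`|E : H| ∈ {1, p}`: otherwise there are `a, b ∈ E` with `b ∉ H` and `a ∉ ⟨b⟩ H`; then
`b ∉ H` and `a b^j ∉ H` for `0 ≤ j < p`. Write `M` additively. For `e ∈ E ∖ H` and `m ∈ M` the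
element `N_e m = ∑_{0 ≤ i < p} e^i m` is fixed by `e`, so `N_e m = 0`. Therefore
`0 = ∑_j N_{a b^j} m = ∑_i a^i ∑_j b^{i j} m = p m + ∑_{0 < i < p} a^i N_b m = p m`
(for `0 < i < p` the `b^{i j}`, `0 ≤ j < p`, are the powers of `b`), so `m = 0` as `p ∤ |M|`, a
contradiction to `M ≠ 0`. -/
def KST_stmt : Prop :=
  ∀ (G : Type) [Group G] [Finite G] (p : ℕ), p.Prime → ∀ (K E : Subgroup G),
    Group.IsSolvable K → K ≠ ⊥ → ¬ p ∣ Nat.card K → EAb p E → (∀ e ∈ E, ∀ a ∈ K, e * a * e⁻¹ ∈ K) →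
    ∃ K₁ H : Subgroup G, K₁ < K ∧ H ≤ E ∧ (H.relIndex E = 1 ∨ H.relIndex E = p) ∧
      (∀ e ∈ E, ∀ a ∈ K₁, e * a * e⁻¹ ∈ K₁) ∧ (∀ e ∈ K, ∀ a ∈ K₁, e * a * e⁻¹ ∈ K₁) ∧
      (∀ e ∈ H, ∀ a ∈ K, ⁅e, a⁆ ∈ K₁) ∧
      (∀ e ∈ E, e ∉ H → ∀ a ∈ K, ⁅e, a⁆ ∈ K₁ → a ∈ K₁)

/-- POS (uses PSB, PSI, KST). Sign of the Euler characteristic of `K E`.

PROOF. Induction on `|K|` (for all `E`, `r`). If `K = ⊥` then `K ⊔ E = E`; if `E = ⊥` then `r = 0`
and `(-1)^1 * (-1) = 1 > 0`; if `E ≠ ⊥` then `chi = 0` and the second hypothesis fails. If `K ≠ ⊥`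
take `K₁, H` from KST, `m = |K : K₁| ≥ 2`; by PSI
`chi(K E) = m chi(K₁ E) - (m - 1) chi(K₁ H)`.
(*) An `e ∈ H` centralising `K₁` centralises `K`: for `a ∈ K`, `c = ⁅e, a⁆ ∈ K₁` commutes with `e`
and `e a e⁻¹ = c a`, so `a = e^p a e^{-p} = c^p a`, `c^p = 1`, `c = 1` as `p ∤ |K|`.
Case `|E : H| = 1`: `H = E`, `chi(K E) = chi(K₁ E)`, use the induction hypothesis
for `(K₁, E)` and (*). Case `|E : H| = p`: `|H| = p^(r-1)`, `r ≥ 1`, and
`(-1)^(r+1) chi(K E) = m (-1)^(r+1) chi(K₁ E) + (m-1) (-1)^r chi(K₁ H)`,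
where both terms are `≥ 0` and the second one is `> 0` if only `1 ∈ E` centralises `K`, by (*) and
the induction hypothesis for `(K₁, H)`. -/
def POS_stmt : Prop :=
  ∀ (G : Type) [Group G] [Finite G] (p : ℕ), p.Prime → ∀ (K E : Subgroup G),
    Group.IsSolvable K → ¬ p ∣ Nat.card K → EAb p E → (∀ e ∈ E, ∀ a ∈ K, e * a * e⁻¹ ∈ K) →
    ∀ r : ℕ, Nat.card E = p ^ r →
    0 ≤ (-1 : ℤ) ^ (r + 1) * chi p (K ⊔ E) ∧
    ((∀ e ∈ E, (∀ a ∈ K, e * a = a * e) → e = 1) → 0 < (-1 : ℤ) ^ (r + 1) * chi p (K ⊔ E))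

/-- HEI. In a `p`-group without Heisenberg pairs the elements of order `p` commute.

PROOF. Suppose not and choose `x, y` with `x^p = y^p = 1`, `x y ≠ y x` and `T = ⟨x, y⟩` of
minimal order. Let `B` be the normal closure of `x` in `T`. `B ≠ T`: otherwise `⟨x⟩ ⁅T, T⁆`, a
normal subgroup containing `x`, is `T`, and `T = ⟨x⟩` as `T` is nilpotent, so `x y = y x`. For
`s, t ∈ T` the subgroup `⟨s x s⁻¹, t x t⁻¹⟩ ≤ B` is smaller than `T`, so the two conjugates commute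
by minimality: `B` is abelian of exponent `p`, normal in `T`. Define `x_0 = x`,
`x_{i+1} = ⁅y, x_i⁆ ∈ B`. As `T` is
nilpotent, `x_i = 1` for large `i`; let `i` be maximal with `x_i ≠ 1`. `i ≥ 1` because
`x_1 = ⁅y, x⁆ ≠ 1`. Put `a = x_{i-1} ∈ B`: `a^p = 1`, `y^p = 1`,
`⁅y, a⁆ = x_i ≠ 1` commutes with `y` (as `x_{i+1} = 1`) and with `a` (`B` abelian). So `(y, a)` is a
Heisenberg pair. -/
def HEI_stmt : Prop :=
  ∀ (P : Type) [Group P] [Finite P] (p : ℕ), p.Prime → IsPGroup p P →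
    (∀ x y : P, ¬ Heis p x y) → ∀ x y : P, x ^ p = 1 → y ^ p = 1 → x * y = y * x

/-- OMG. An automorphism `φ` of order prime to `p` of a `p`-group `Q`, `p` odd, which fixes
all elements of order `p`, is trivial.

PROOF. Induction on `|Q|`. (1) If `R` is a `φ`-invariant proper subgroup of `Q` then `φ` is trivial
on `R` by induction. (2) If `R` is a subgroup on which `φ` is trivial
and `c(x) = x⁻¹ φ(x) ∈ R` for all `x ∈ Q`, then `φ^m(x) = x c(x)^m`, so `c(x)^m = 1`, and `c(x)` is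
a `p`-element, `p ∤ m`, so `c(x) = 1`: `φ = 1`.
Let `R` be the subgroup generated by all `x⁻¹ φ(x)`; it is `φ`-invariant. If `R ≠ Q` then `φ` is
trivial on `R` by (1) and `φ = 1` by (2). Let `R = Q`; `Q ≠ 1` without loss. Let `F` be the subgroup
generated by all `x^p` and all commutators; it is characteristic and proper (`Q` has a normal
subgroup of index `p`), so `φ` is trivial on `F` by (1). For `f ∈ F`, `x ∈ Q`:
`x f x⁻¹ = φ(x f x⁻¹) = φ(x) f φ(x)⁻¹`, so `x⁻¹ φ(x)` commutes with `f`; as `R = Q`, `F ≤ Z(Q)`.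
Hence commutators are central, `⁅x, y⁆^p = ⁅x^p, y⁆ = 1`, and as `p` is odd
`(x y)^p = x^p y^p ⁅y, x⁆^(p(p-1)/2) = x^p y^p`. So
`(x⁻¹ φ(x))^p = x^{-p} φ(x^p) = 1` as `x^p ∈ F` is fixed by `φ`. So all `x⁻¹ φ(x)` are
fixed by `φ` by hypothesis, and (2) (computing `φ^m(x) = x c(x)^m` directly) gives `φ = 1`. -/
def OMG_stmt : Prop :=
  ∀ (Q : Type) [Group Q] [Finite Q] (p : ℕ), p.Prime → p ≠ 2 → IsPGroup p Q →
    ∀ (φ : MulAut Q) (m : ℕ), ¬ p ∣ m → φ ^ m = 1 → (∀ w : Q, w ^ p = 1 → φ w = w) → φ = 1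

/-- NQL. `G` finite solvable, `Z ≤ C` normal subgroups, `Z` central in `C`, `C ≠ Z`. Then there is
a normal `ℓ`-subgroup `Q` of `G`, `ℓ` a prime, with `Q ≤ C`, `Q ⊄ Z`, `⁅Q, Q⁆ ≤ Z`.

PROOF. Let `Y` be minimal among the normal subgroups of `G` with `Z ≤ Y ≤ C`, `Y ⊄ Z`. `⁅Y, Y⁆ Z` is
normal in `G`, between `Z` and `Y`, and `≠ Y` as `Y / Z` is solvable and nontrivial; so
`⁅Y, Y⁆ ≤ Z` by minimality. `Z` is central in `Y`, so `Y` is nilpotent (class `≤ 2`), all its Sylow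
subgroups are characteristic in `Y`, hence normal in `G`, and they generate `Y`; so one of them is
not contained in `Z`. -/
def NQL_stmt : Prop :=
  ∀ (G : Type) [Group G] [Finite G], Group.IsSolvable G → ∀ (Z C : Subgroup G), Z.Normal → C.Normal →
    Z ≤ C → (∀ z ∈ Z, ∀ c ∈ C, z * c = c * z) → ¬ C ≤ Z →
    ∃ (ℓ : ℕ) (Q : Subgroup G), ℓ.Prime ∧ Q.Normal ∧ IsPGroup ℓ Q ∧ Q ≤ C ∧ ¬ Q ≤ Z ∧
      ∀ a ∈ Q, ∀ b ∈ Q, ⁅a, b⁆ ∈ Z

/-- HH1 (uses NQL). `G` finite solvable without nontrivial normal `p'`-subgroups. Then the largest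
normal `p`-subgroup `Q` contains its centraliser.

PROOF. The product of two normal `p`-subgroups is one, so there is a largest one `Q`. Let
`C = C_G(Q)`, `Z = C ∩ Q`. If `C ⊄ Z`, NQL gives a normal `ℓ`-subgroup `Q' ≤ C`, `Q' ⊄ Z`. If
`ℓ = p` then `Q' ≤ Q`, so `Q' ≤ Z`, a contradiction. If `ℓ ≠ p` then `p ∤ |Q'|` and `Q' = ⊥`, a
contradiction. So `C ≤ Z ≤ Q`. -/
def HH1_stmt : Prop :=
  ∀ (G : Type) [Group G] [Finite G] (p : ℕ), p.Prime → Group.IsSolvable G →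
    (∀ N : Subgroup G, N.Normal → ¬ p ∣ Nat.card N → N = ⊥) →
    ∃ Q : Subgroup G, Q.Normal ∧ IsPGroup p Q ∧
      (∀ P : Subgroup G, P.Normal → IsPGroup p P → P ≤ Q) ∧
      (∀ x : G, (∀ y ∈ Q, x * y = y * x) → x ∈ Q)

/-- HH2 (uses HH1, OMG). `G` finite solvable, `p` odd, without nontrivial normal `p'`-subgroups. If
the elements of order `p` of a Sylow `p`-subgroup `S` commute, then all elements of order `p` of `G`
commute.

PROOF. Let `Q` be as in HH1, and `D = {x : x w = w x for all w ∈ Q with w^p = 1}`, a normal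
subgroup of `G`. `D` is a `p`-group: otherwise it contains an element `d` of prime order `ℓ ≠ p`
(Cauchy); conjugation by `d` is an automorphism `φ` of `Q` with `φ^ℓ = 1` fixing all `w ∈ Q` with
`w^p = 1`, so `φ = 1` by OMG, `d ∈ C_G(Q) ≤ Q`, a contradiction. So `D ≤ Q`. Let `x^p = 1`. A
conjugate `x'` of `x` is in `S`, and `Q ≤ S` (normal `p`-subgroup), so `x'` commutes with all
`w ∈ Q` with `w^p = 1`: `x' ∈ D ≤ Q`, so `x ∈ Q ≤ S`. So all elements with `x^p = 1` are in `S`,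
and they commute. -/
def HH2_stmt : Prop :=
  ∀ (G : Type) [Group G] [Finite G] (p : ℕ), p.Prime → p ≠ 2 → Group.IsSolvable G →
    (∀ N : Subgroup G, N.Normal → ¬ p ∣ Nat.card N → N = ⊥) →
    ∀ S : Sylow p G, (∀ x ∈ (S : Subgroup G), ∀ y ∈ (S : Subgroup G), x ^ p = 1 → y ^ p = 1 →
      x * y = y * x) →
    ∀ x y : G, x ^ p = 1 → y ^ p = 1 → x * y = y * x

/-- HH3 (uses HEI, HH2). `G` finite solvable, `p` odd, no Heisenberg pairs. Then there are a largest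
normal `p'`-subgroup `K` and an elementary abelian `p`-subgroup `E` such that `K E` contains all
elements of order `p`.

PROOF. Products of normal `p'`-subgroups are `p'`-subgroups, so there is a largest one `K`; `G / K`
has no nontrivial normal `p'`-subgroup. Let `S` be a Sylow `p`-subgroup of `G`. By HEI (for the group
`S`) the elements `s ∈ S` with `s^p = 1` commute and form a subgroup `E`, elementary abelian. The
image `S'` of `S` in `G / K` is a Sylow `p`-subgroup of `G / K` and `S → S'` is injective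
(`S ∩ K = 1`); an element of `S'` with `p`-th power `1` is the image of an `s ∈ S` with
`s^p ∈ S ∩ K = 1`. So the elements of order `p` of `S'` commute, and by HH2 all elements `x` of
`G / K` with `x^p = 1` commute. They form a normal `p`-subgroup, which is contained in `S'`. So if
`x ∈ G`, `x^p = 1`, the image of `x` is in `S'`, equal to the image of an `s ∈ S`, `s^p = 1`, and
`x ∈ s K ⊆ K E`. -/
def HH3_stmt : Prop :=
  ∀ (G : Type) [Group G] [Finite G] (p : ℕ), p.Prime → p ≠ 2 → Group.IsSolvable G →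
    (∀ x y : G, ¬ Heis p x y) →
    ∃ K E : Subgroup G, K.Normal ∧ ¬ p ∣ Nat.card K ∧
      (∀ N : Subgroup G, N.Normal → ¬ p ∣ Nat.card N → N ≤ K) ∧ EAb p E ∧
      (∀ x : G, x ^ p = 1 → x ∈ K ⊔ E)

/-- CNE (uses HH3, POS). PROOF. Take `K, E` from HH3; `N ≤ K`. Every subgroup `F` with `EAb p F` is
contained in `K ⊔ E`, so `chi p ⊤ = chi p (K ⊔ E)` (same chains). `E` is a `p`-group,
`|E| = p^r`. If `e ∈ E` centralises `K` then it centralises `N`, so `e ∈ N`, `e^p = 1`, `p ∤ |N|`,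
`e = 1`. So `chi p (K ⊔ E) ≠ 0` by POS. -/
def CNE_stmt : Prop :=
  ∀ (G : Type) [Group G] [Finite G] (p : ℕ), p.Prime → p ≠ 2 → Group.IsSolvable G →
    (∀ x y : G, ¬ Heis p x y) →
    ∀ N : Subgroup G, N.Normal → ¬ p ∣ Nat.card N →
    (∀ x : G, (∀ y ∈ N, x * y = y * x) → x ∈ N) → chi p (⊤ : Subgroup G) ≠ 0

/-- RED (uses NQL). Structure of a minimal counterexample.

PROOF. A minimal normal subgroup is a normal `M ≠ ⊥` such that every normal `L ≤ M` is `⊥` or `M`.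
Such an `M` is abelian (solvability). An abelian normal subgroup `B` has order prime to `p` (the
subgroup of its `p`-elements is normal in `G`). Let `N` be the supremum of all minimal normal
subgroups. Distinct ones intersect trivially, so commute; `N` is abelian, normal, `p ∤ |N|`.
(1) For a minimal normal `M` choose (hypothesis) a normal `W > M` of `G` with `W / M` a `p`-group.
Then `M ∩ C_G(W) = ⊥`: this is a normal subgroup of `G` contained in `M`; if it is `M`, let `R` be a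
Sylow `p`-subgroup of `W`; `W = M R`, `M` central in `W`, so `R` is normal in `W`, so
characteristic in `W`, so normal in `G`, so `R = ⊥` and `W = M`, a contradiction.
(2) Let `Y` be a normal subgroup of `G`, `p ∤ |Y|`, `M ≤ Y`, `M` central in `Y`. Then
`M ⊔ (Y ⊓ C_G(W)) = Y`: `W = M R` with `R` a Sylow `p`-subgroup of `W`. `Y ∩ W` has order
prime to `p` and `W / M` is a `p`-group so `Y ∩ W ≤ M`. For `y ∈ Y`, `r ∈ R`: `⁅r, y⁆ ∈ Y ∩ W ≤ M`,
so `R` acts by conjugation on the coset `y M`, which has `|M|` elements, prime to `p`; so there is a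
fixed point `y' = y m`, i.e. `y'` commutes with `R`, and with `M` (central in `Y`), so with
`W = M R`. So `y = y' m⁻¹ ∈ (Y ⊓ C_G(W)) M`.
(3) `C_G(N) ≤ N`: otherwise NQL (with `Z = N`, `C = C_G(N)`) gives a normal `ℓ`-subgroup
`Q ≤ C_G(N)`, `Q ⊄ N`; `ℓ ≠ p` as `Q ≠ ⊥`. Put `Y = N ⊔ Q`, normal, `p ∤ |Y|`, `N` central in `Y`,
`Y ≠ N`. Let `L` be of minimal order among the normal subgroups `L ≤ Y` of `G` with `N ⊔ L = Y`.
`L ≠ ⊥`. Let `M ≤ L` be minimal normal, so `M ≤ N`; `D = Y ⊓ C_G(W)` as above: `M ⊓ D = ⊥`,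
`M ⊔ D = Y`. Then `L = M ⊔ (L ⊓ D)` (modular law) and `N ⊔ (L ⊓ D) = N ⊔ M ⊔ (L ⊓ D) = Y`, so
`L ⊓ D = L` by minimality, `M ≤ D`, a contradiction.
(4) The last property: (1) and (2) with `Y = N`, `D = N ⊓ C_G(W)`. -/
def RED_stmt : Prop :=
  ∀ (G : Type) [Group G] [Finite G] (p : ℕ), p.Prime → Group.IsSolvable G →
    (∀ P : Subgroup G, P.Normal → IsPGroup p P → P = ⊥) →
    (∀ V : Subgroup G, V.Normal → V ≠ ⊥ → ¬ p ∣ Nat.card V →
      ∃ W : Subgroup G, W.Normal ∧ V < W ∧ ∃ r : ℕ, V.relIndex W = p ^ r) →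
    ∃ N : Subgroup G, N.Normal ∧ (∀ x ∈ N, ∀ y ∈ N, x * y = y * x) ∧ ¬ p ∣ Nat.card N ∧
      (∀ x : G, (∀ y ∈ N, x * y = y * x) → x ∈ N) ∧
      ∀ M : Subgroup G, M.Normal → M ≠ ⊥ → M ≤ N →
        (∀ L : Subgroup G, L.Normal → L ≤ M → L = ⊥ ∨ L = M) →
        ∃ D : Subgroup G, D.Normal ∧ D ≤ N ∧ M ⊓ D = ⊥ ∧ M ⊔ D = N

/-- TWO (uses IMP, QPR, KF, TOC). The two-orbit theorem.

PROOF. Induction on `N`: let `|V| < N` and assume `TwoFor p |V|`. If `Impr H V` use IMP. Otherwise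
`QP H V` by QPR, KF gives a finite field `k` and a `k`-module structure on `V` with `SLD k V H`, and
TOC gives the result. -/
def TWO_stmt : Prop := ∀ p : ℕ, p.Prime → 5 ≤ p → ∀ N : ℕ, TwoFor p N

/-- GVN (uses TWO). Good elements of a completely reducible abelian normal subgroup.

PROOF. For every normal subgroup `L ≤ N` of `G` there is `g ∈ L` such that for every
Heisenberg pair `x, y` of `G` commuting with `g`, `⁅x, y⁆` commutes with all elements of `L`: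
induction on `|L|`. `L = ⊥`: `g = 1`. Otherwise let `M ≤ L` be minimal normal in `G`, `D` its
complement from the hypothesis, `L' = L ⊓ D`; then `L = M ⊔ L'` (modular law), `M ⊓ L' = ⊥`,
`|L'| < |L|`; take `g' ∈ L'` by induction. `V = Additive M` is a finite abelian group
(nontrivial, `p ∤ |V|`), `G` acts on it by conjugation, `ρ : G → AddAut V`; let `H` be the range
of `ρ` (finite solvable, acting faithfully). `V` is irreducible: an `H`-invariant subgroup of `V` is a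
normal subgroup of `G` contained in `M`. By TWO there is a good vector `m ∈ M`.
`g = m g'`. Let `x, y` be a Heisenberg pair of `G` commuting with `g`. `x m x⁻¹ ∈ M`,
`x g' x⁻¹ ∈ L'`, and `(x m x⁻¹)(x g' x⁻¹) = m g'`, so `x` commutes with `m` and `g'`
(`M ⊓ L' = ⊥`, `N` abelian); same for `y`. So `⁅x, y⁆` commutes with `L'`. And
`ρ(x), ρ(y)` fix `m`; if `⁅ρ(x), ρ(y)⁆ ≠ 1` they would be a Heisenberg pair of `H` fixing `m`,
a contradiction; so `⁅x, y⁆` commutes with `M`, hence with `L = M L'`. -/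
def GVN_stmt : Prop :=
  ∀ (G : Type) [Group G] [Finite G] (p : ℕ), p.Prime → 5 ≤ p → Group.IsSolvable G →
    ∀ N : Subgroup G, N.Normal → (∀ x ∈ N, ∀ y ∈ N, x * y = y * x) → ¬ p ∣ Nat.card N →
    (∀ M : Subgroup G, M.Normal → M ≠ ⊥ → M ≤ N →
        (∀ L : Subgroup G, L.Normal → L ≤ M → L = ⊥ ∨ L = M) →
        ∃ D : Subgroup G, D.Normal ∧ D ≤ N ∧ M ⊓ D = ⊥ ∧ M ⊔ D = N) →
    ∃ g ∈ N, ∀ x y : G, Heis p x y → x * g = g * x → y * g = g * y →
      ∀ a ∈ N, ⁅x, y⁆ * a = a * ⁅x, y⁆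

/-- MAIN (uses COI, CEN, TRF, CNE, RED, GVN).

PROOF. Induction on `|G|`. Suppose `Lef G p g = 0` for all `g`. Let `V ≠ ⊥` be normal with
`p ∤ |V|`. By COI `Lef (G ⧸ V) p` vanishes identically, so by induction `G ⧸ V` has a
nontrivial normal `p`-subgroup; its preimage `W` is normal, `V < W`, `|W : V|` a power of `p`. So
RED applies; let `N` be as there and `g` as in GVN. `G₁ = C_G(g)` is solvable and contains `N`.
It has no Heisenberg pair: a pair `x, y` in `G₁` has `⁅x, y⁆` commuting with `N`, so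
`⁅x, y⁆ ∈ N`; but `⁅x, y⁆^p = ⁅x^p, y⁆ = 1` (as `⁅x, y⁆` commutes with `x`) and `p ∤ |N|`, so
`⁅x, y⁆ = 1`, a contradiction. By CNE for `G₁` and
`N.subgroupOf G₁`, `chi p (⊤ : Subgroup G₁) ≠ 0`; it is `chi p G₁ = Lef G p g` by TRF, CEN. -/
def MAIN_stmt : Prop :=
  ∀ (G : Type) [Group G] [Finite G] (p : ℕ), p.Prime → 5 ≤ p → Group.IsSolvable G →
    (∀ P : Subgroup G, P.Normal → IsPGroup p P → P = ⊥) → ∃ g : G, Lef G p g ≠ 0

/-! ## Part B -/

/-- IMP (uses PERM). Imprimitive modules.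

PROOF. Let `W : ι → AddSubgroup V` be as in `Impr`. The `W i` are distinct (nonzero and
independent), so `H` acts on `ι`: `h • i` is the unique `j` with `v ∈ W i ↔ h • v ∈ W j`. For
`v ∈ V` write `v = ∑ v_i`, `v_i ∈ W i` (unique); `h • v_i = (h • v)_{h • i}`. The action on `ι` is
transitive: for an orbit `O` the subgroup `{v : v_i = 0 for i ∉ O}` is invariant and nonzero.
Fix `i₀`, `U = W i₀`, `N₁` the stabiliser of `i₀`, `H₁` the image of `N₁` in `AddAut U` (it acts on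
`U` faithfully, is finite and solvable). `U` is `H₁`-irreducible: if `U₁ ≤ U` is `N₁`-invariant then
`{v : v_i ∈ h_i U₁ for all i}`, where `h_i i₀ = i`, is `H`-invariant (`h h_i = h_{h i} n` with
`n ∈ N₁`), so is `⊥` or `⊤`, and `U₁` is `⊥` or `U`. `|U| < |V|` (two nonzero
summands), `|U|` divides `|V|`. By the
hypothesis `TwoFor p |V|` there are good vectors `u₁, u₂ ∈ U` for `H₁` in different
`H₁`-orbits. By PERM (for `H` acting on `ι`) there is `Δ ⊆ ι` as in `PCon`. Put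
`v_Δ = ∑_{i ∈ Δ} h_i u₁ + ∑_{i ∉ Δ} h_i u₂`, and `w_Δ` the same with `u₁, u₂` exchanged.
If `h ∈ H` maps `v_Δ` or `w_Δ` to `v_Δ` or `w_Δ`: for `i ∈ ι` the vector `h h_i u_a` is
`h_{h i} u_b`, so `h_{h i}⁻¹ h h_i ∈ N₁` maps `u_a` to `u_b`, so `a = b`.
(1) If `h v_Δ = w_Δ` then `h Δ = Δᶜ`, so `2 |Δ| = |ι|`, a contradiction: `v_Δ`, `w_Δ` are in
different orbits. (2) `v_Δ` is good (`w_Δ` too, same proof): let `x, y` be a Heisenberg pair fixing
`v_Δ`. Then `x Δ ⊆ Δ`, `x^p = 1`, so `x` acts trivially on `ι` by PERM; same for `y`. Let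
`z = ⁅x, y⁆ ≠ 1`; by faithfulness `z` is nontrivial on some `W i`. Conjugating by `h_i⁻¹` we get
`x' = h_i⁻¹ x h_i`, `y'` in `N₁`, whose images in `H₁` are a Heisenberg pair (`⁅x', y'⁆` is
nontrivial on `U`) fixing `u₁` or `u₂`, a contradiction. -/
def IMP_stmt : Prop :=
  ∀ (p : ℕ), p.Prime → 5 ≤ p → ∀ (V : Type) [AddCommGroup V] [Finite V] (H : Type) [Group H]
    [Finite H] [DistribMulAction H V], Nontrivial V → Group.IsSolvable H → Fai H V → Irr H V →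
    ¬ p ∣ Nat.card V → Impr H V → TwoFor p (Nat.card V) → Two p H V

/-- QPR. Primitive irreducible modules are quasi-primitive in the sense of `QP`.

PROOF. Let `A` be an abelian normal subgroup, `R = RngOf H V A`: a finite commutative ring (its
generators commute), stable under `T ↦ T^h = h T h⁻¹`, `h ∈ H`. Let `T ∈ R`, `T ≠ 0`.
Suppose `T` is not injective. Some power `e = T^N`, `N ≥ 1`, is idempotent (finite monoid).
`e ≠ 1`, as `T` is not injective.
If `e = 0`, `T` is nilpotent. Let `W = {v : S v = 0 for all nilpotent S ∈ R}`, an `H`-invariant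
subgroup. Choose `v ≠ 0` with `|R v|` minimal, `R v = {S v : S ∈ R}`. Let `S ∈ R` be
nilpotent. If `S v ≠ 0` then `R (S v) ⊆ R v`, so there is equality by minimality, and
`v = S' S v` for some `S' ∈ R`; `S' S` is nilpotent, so `v = 0`, a contradiction. So `v ∈ W`, and
`W = ⊤` by irreducibility. So `T = 0`, a contradiction.
So `R` contains an idempotent `≠ 0, 1`. Let `e ∈ R` be an idempotent `≠ 0` with `|e V|`
minimal; `e ≠ 1`. For `h ∈ H`, `e^h ∈ R` is idempotent with `e^h V = h (e V)`. `e e^h` is an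
idempotent of `R` with image in `e V`; so it is `0`, or `e e^h V = e V = e^h V` (same
cardinality) and then `e = e^h` (commuting idempotents with the same image).
Let `ι` be the set of all `e^h`, a finite set of pairwise orthogonal nonzero idempotents, permuted
by `H` under conjugation; `W_f = f V` for `f ∈ ι`. `∑_{f ∈ ι} f` is an idempotent commuting with
`H` and `≠ 0`, so its image is `V` (irreducibility) and it is `1`. So `V` is the
direct sum of the `W_f`, and `|ι| ≥ 2` because `e ≠ 1`: `Impr H V`. -/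
def QPR_stmt : Prop :=
  ∀ (V : Type) [AddCommGroup V] [Finite V] (H : Type) [Group H] [Finite H]
    [DistribMulAction H V], Nontrivial V → Irr H V → ¬ Impr H V → QP H V

/-- PERM (uses PRI). The permutation lemma for transitive actions.

PROOF. Induction on `|Ω|`. If the action is primitive (or `|Ω| = 1`: `Δ = ∅`), use PRI. Otherwise
there is a block `B` with `1 < |B| < |Ω|`. Its stabiliser `S_B` acts transitively on `B`, and `S`
acts transitively on the set `Ω'` of translates of `B`, `|Ω'| = |Ω| / |B|`. By induction there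
are `Δ₁ ⊆ B` for `S_B` and `Δ' ⊆ Ω'` for `S`. Let `b = |B|`, `d = |Δ₁|`, `m = |Ω'|`,
`d' = |Δ'|`; `2 d ≠ b`, `2 d' ≠ m`. For `C ∈ Ω'` choose `g_C` with `g_C B = C` and put
`Δ ∩ C = g_C Δ₁` if `C ∉ Δ'` and `Δ ∩ C = g_C (B ∖ Δ₁)` if `C ∈ Δ'`. Then
`|Δ| = (m - d') d + d' (b - d)` and `m b - 2 |Δ| = (m - 2 d') (b - 2 d) ≠ 0`. Let `x ∈ S` with
`x^p` trivial on `Ω` and `x Δ ⊆ Δ` (so `x Δ = Δ`). `|Δ ∩ C|` is `d` or `b - d`, which are different,
according to `C ∉ Δ'`, `C ∈ Δ'`, so `x Δ' = Δ'` and `x` acts trivially on `Ω'`. So `x` maps each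
`C` to itself, and stabilises `Δ ∩ C`, hence `g_C⁻¹ x g_C ∈ S_B` stabilises `Δ₁` or its
complement in `B`, hence `Δ₁`, and acts trivially on `B`. So `x` is trivial on each `C`. -/
def PERM_stmt : Prop :=
  ∀ (p : ℕ), p.Prime → 5 ≤ p → ∀ (S Ω : Type) [Group S] [Finite S] [Finite Ω] [Nonempty Ω]
    [MulAction S Ω] [MulAction.IsPretransitive S Ω], Group.IsSolvable S → PCon p S Ω

/-- PR1. Primitive solvable permutation groups.

PROOF. Let `T` be a minimal normal subgroup of `S` (`S ≠ 1` because it is transitive on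
`|Ω| ≥ 2` points). `T` is abelian of prime exponent `q` (solvability). `T` acts nontrivially
(faithfulness), so transitively (primitivity: normal subgroups of a primitive group are
transitive or trivial on `Ω`). The
stabilisers in `T` are trivial (`T` is abelian, transitive, faithful). So `|Ω| = |T| = q^a`,
`a ≥ 1`. Let `ω ∈ Ω`, `S_ω` its stabiliser: `|S| = |Ω| |S_ω|`. `S_ω` acts faithfully on `T` by
conjugation: if `s ∈ S_ω` centralises `T` then `s t ω = t s ω = t ω` for all `t`, so `s = 1`. `T` is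
generated by `a` elements, so it has at most `(q^a)^a` endomorphisms. So
`|S| ≤ q^a (q^a)^a`. Let `x ≠ 1`, `x^p = 1`, `x ω = ω`. `t ω` is fixed by `x` iff
`x t x⁻¹ ω = t ω` iff `t ∈ C_T(x)`. So the number `f` of fixed points is `|C_T(x)|`, and
`f t = q^a` with `t = |T : C_T(x)|`, `t > 1` because `x` does not centralise `T`. Let `p ≠ q`:
`x` acts on `T / C_T(x)`, and a fixed coset `s C_T(x)` has `f = q^b` elements, prime to `p`,
so contains a fixed point of `x` (order `p`), so is `C_T(x)`. So `x` has exactly one fixed point on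
`T / C_T(x)`, all other orbits have length `p`, and `t ≡ 1` mod `p`. -/
def PR1_stmt : Prop :=
  ∀ (S Ω : Type) [Group S] [Finite S] [Finite Ω] [MulAction S Ω] [MulAction.IsPreprimitive S Ω],
    Group.IsSolvable S → (∀ s : S, (∀ ω : Ω, s • ω = ω) → s = 1) → 2 ≤ Nat.card Ω →
    ∃ q a : ℕ, q.Prime ∧ 1 ≤ a ∧ Nat.card Ω = q ^ a ∧ Nat.card S ≤ (q ^ a) ^ (a + 1) ∧
      ∀ (p : ℕ) (x : S), p.Prime → x ^ p = 1 → x ≠ 1 → (∃ ω : Ω, x • ω = ω) →
        ∃ t : ℕ, 1 < t ∧ fx Ω x * t = q ^ a ∧ (p ≠ q → t % p = 1)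

/-- PR2. The number of invariant subsets.

PROOF. The orbits of `⟨x⟩` on `Ω` have length `1` or `p`, so their number is
`f + (|Ω| - f) / p`; a subset with `x Δ ⊆ Δ` is a union of orbits. -/
def PR2_stmt : Prop :=
  ∀ (S Ω : Type) [Group S] [Finite Ω] [MulAction S Ω] (p : ℕ), p.Prime → ∀ x : S,
    (∀ ω : Ω, x ^ p • ω = ω) →
    Nat.card {Δ : Set Ω // ∀ ω ∈ Δ, x • ω ∈ Δ} = 2 ^ (fx Ω x + (Nat.card Ω - fx Ω x) / p)

/-- PRA. Few fixed points.

PROOF. If there is no `x` as in the hypothesis take `Δ = ∅`. Otherwise let `F` be the maximum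
of `fx Ω x` over these `x`, `d = F + 1 < p`. Such an `x` has an orbit of length `p`, so
`|Ω| ≥ p > d`; let `Δ` be any subset with `d` elements. `2 d ≠ |Ω|`: otherwise
`|Ω| = 2 F + 2`; if `F = 0`, `2 = |Ω| ≥ 5`; if `F ≥ 1`, `5 F ≤ |Ω| = 2 F + 2`; contradiction.
Suppose `x^p` is trivial and `x Δ ⊆ Δ`; the orbits of `x` in `Δ` have length
`1`, as `|Δ| < p`; so `x` fixes `d > F` points, and `x` is trivial. -/
def PRA_stmt : Prop :=
  ∀ (p : ℕ), p.Prime → 5 ≤ p → ∀ (S Ω : Type) [Group S] [Finite S] [Finite Ω] [Nonempty Ω]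
    [MulAction S Ω],
    (∀ x : S, (∀ ω : Ω, x ^ p • ω = ω) → (∃ ω : Ω, x • ω ≠ ω) →
      fx Ω x + 1 < p ∧ (fx Ω x = 0 ∨ 5 * fx Ω x ≤ Nat.card Ω)) → PCon p S Ω

/-- PRB (uses PR2). Counting.

PROOF. Let `n = |Ω| ≥ 1`. The number of `Δ` with `2 |Δ| = n` is at most `2^(n-1)`
(it is `0` or `n.choose (n/2)`, which is `2 (n-1).choose (n/2)` for `n` even, and
`2 (n-1).choose (n/2) = (n-1).choose (n/2) + (n-1).choose (n/2 - 1) ≤ 2^(n-1)`).
The number of `Δ` stabilised by some `x` with `x^p` trivial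
and `x` nontrivial is at most `|S| 2^c < 2^(n-1)`. So some `Δ` is in neither set. -/
def PRB_stmt : Prop :=
  ∀ (p : ℕ), p.Prime → 5 ≤ p → ∀ (S Ω : Type) [Group S] [Finite S] [Finite Ω] [Nonempty Ω]
    [MulAction S Ω] (c : ℕ),
    (∀ x : S, (∀ ω : Ω, x ^ p • ω = ω) → (∃ ω : Ω, x • ω ≠ ω) →
      fx Ω x + (Nat.card Ω - fx Ω x) / p ≤ c) →
    Nat.card S * 2 ^ c < 2 ^ (Nat.card Ω - 1) → PCon p S Ω

/-- PNU (arithmetic).

PROOF. (1) (first part) Write `k = f t = q^a`; `t` is a power of `q`, `t ≡ 1` mod `p`, `t > 1`. The number of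
cycles is `f (1 + (t - 1) / p)` and the claim is `11 (p + t - 1) ≤ 3 t p`. `t ≥ p + 1`, and `t ≠ 6`
(prime power) so `t ≥ 11` if `p = 5`: `11 (t + 4) ≤ 15 t` iff `t ≥ 11`. `p = 7`:
`11 (t + 6) ≤ 21 t` iff `t ≥ 7`. `p ≥ 11`: `11 (p + t - 1) ≤ 22 (t - 1) ≤ 3 t p` as
`p ≤ t - 1`.
(1') (the bound 64) `p = 5`: `t = 11` gives `q = 11`, `f` a power of `11`, `f ≥ 4`, so `f ≥ 11`, `k ≥ 121`;
`t ≥ 16` gives `k ≥ 64`. `p = 7`: `t = 8` gives `f` a power of `2`, `f ≥ 6`, so `f ≥ 8`,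
`k ≥ 64`; `t > 8` gives `t ≥ 15`, `k ≥ 90`. `p ≥ 11`: `k ≥ 12 * 10`.
(2) (second part) `q = 2`: `a ≥ 6`, `(a² + a) + 3 * 2^a / 11 < 2^a - 1`, i.e. `a² + a + 1 < 8 * 2^a / 11` (`43` and
`46.5` for `a = 6`, then by induction). `q ≥ 3`: let `2^l ≤ q^a < 2^(l+1)`, `l ≥ 6`;
`3^a < 2^(l+1)`, so `3 a < 2 (l + 1)` (`3^a ≥ 2^(3a/2)`, since `9 > 8`), and
`(a + 1)(l + 1) ≤ (2 (l + 1) / 3 + 1)(l + 1) < 8 * 2^l / 11 - 1` for `l ≥ 6` (`35 < 45.5` at
`l = 6`, where `a ≤ 4`).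
(3) (third part) `p^a (p^a)^a 2^c` with `p^2 c ≤ (2p-1) p^a`, `a ≥ 2`: the exponent
`log₂` is at most `(a² + a) log₂ p + p^a (2p - 1) / p²`, to be `< p^a - 1`, i.e.
`(a² + a) log₂ p + 1 < p^a (p - 1)² / p²`. For `p = 5`, `a = 2`: `5^6 * 2^9 = 8000000 < 2^24`.
In general `(p - 1)² / p² ≥ 16 / 25`, `log₂ p ≤ (p + 2) / 3` (`5 < 2^(7/3)`): increasing in `p`
and `a`. -/
def PNU_stmt : Prop :=
  (∀ p q a f t : ℕ, p.Prime → 5 ≤ p → q.Prime → p ≠ q → f * t = q ^ a → 1 < t → t % p = 1 →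
    11 * (f + (q ^ a - f) / p) ≤ 3 * q ^ a ∧ (p ≤ f + 1 → 64 ≤ q ^ a)) ∧
  (∀ q a c : ℕ, q.Prime → 64 ≤ q ^ a → 11 * c ≤ 3 * q ^ a →
    (q ^ a) ^ (a + 1) * 2 ^ c < 2 ^ (q ^ a - 1)) ∧
  (∀ p a c : ℕ, p.Prime → 5 ≤ p → 2 ≤ a → p ^ 2 * c ≤ (2 * p - 1) * p ^ a →
    (p ^ a) ^ (a + 1) * 2 ^ c < 2 ^ (p ^ a - 1))

/-- PRI (uses PR1, PRA, PRB, PNU). The permutation lemma for primitive actions.

PROOF. If `|Ω| = 1` take `Δ = ∅`. Let `|Ω| ≥ 2`. Replace `S` by its image in `Equiv.Perm Ω` (it is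
finite, solvable, primitive, faithful, and `PCon` for the image implies `PCon` for `S`).
Take `q, a` from PR1, `k = q^a`. Let `x` be nontrivial with `x^p = 1`, `f = fx Ω x`. If `f = 0`, all
orbits have length `p`, so `p ∣ q^a` and `p = q`. If `f ≥ 1` take `t` from PR1; `f t = q^a`, and
`t ≥ p` (if `p = q`, `t > 1` is a power of `p`; if `p ≠ q`, `t ≡ 1` mod `p`, `t > 1`), so
`5 f ≤ k`. If all such `x` have `f + 1 < p`, use PRA. Otherwise there is `x₀` with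
`f₀ = fx Ω x₀ ≥ p - 1 ≥ 4`. Case `p ≠ q`: `k ≥ 64` by PNU (1), and for all `x` as above the number
`f + (k - f) / p` is at most `c = ⌊3 k / 11⌋` by PNU (1); use PRB and PNU (2). Case
`p = q`: `f₀ > 1` is a power of `p` and so is `t₀ > 1`, so `a ≥ 2`. For all `x` as above `f ≤ k / p`,
so `p² (f + (k - f) / p) ≤ p (p - 1) f + p k ≤ (2 p - 1) k`; use PRB with
`c = ⌊(2 p - 1) k / p²⌋` and PNU (3). -/
def PRI_stmt : Prop :=
  ∀ (p : ℕ), p.Prime → 5 ≤ p → ∀ (S Ω : Type) [Group S] [Finite S] [Finite Ω] [Nonempty Ω]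
    [MulAction S Ω] [MulAction.IsPreprimitive S Ω], Group.IsSolvable S → PCon p S Ω

/-! ## Part C -/

/-- KF. From `QP` to a semilinear group over a finite field.

PROOF. Let `A` be a maximal abelian normal subgroup of `H`, `R = RngOf H V A`, a finite commutative
ring in which nonzero elements are injective on `V`, so it has no zero divisors and is a field `k`
(finite domain). `V` is a `k`-module. `A` acts by scalars. For `h ∈ H`, `T ↦ h T h⁻¹` maps the
generators of `R` to generators, so it is an automorphism `σ` of `R` and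
`h (T v) = σ(T) (h v)`. `SA` is an abelian normal subgroup of `H` (faithfulness; scalars commute;
`h c h⁻¹ = σ(c)`) and contains `A`, so it is `A` by maximality; `maxi` is the maximality
of `A`. -/
def KF_stmt : Prop :=
  ∀ (V : Type) [AddCommGroup V] [Finite V] (H : Type) [Group H] [Finite H]
    [DistribMulAction H V], Nontrivial V → Group.IsSolvable H → Fai H V → QP H V →
    ∃ (k : Type) (_ : Field k) (_ : Finite k) (_ : Module k V), SLD k V H

/-- K2. PROOF. The automorphism `σ_h` with `h (c u) = σ_h(c) (h u)` is unique (`U ≠ 0`), so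
`h ↦ σ_h` is a homomorphism from `H` to the group of automorphisms of the field `k`, with kernel
`SC`. If `|k| = r^s`, `r` prime, this group is cyclic of order `s`. `SA` is normal:
`h c h⁻¹ = σ_h(c)`. -/
def K2_stmt : Prop :=
  ∀ (k U H : Type) [Field k] [Finite k] [AddCommGroup U] [Module k U] [Finite U] [Group H]
    [Finite H] [DistribMulAction H U], SLD k U H →
    (SA k U H).Normal ∧ (SC k U H).Normal ∧ SA k U H ≤ SC k U H ∧ (∀ x y : H, ⁅x, y⁆ ∈ SC k U H) ∧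
    ∃ r s : ℕ, r.Prime ∧ 1 ≤ s ∧ Nat.card k = r ^ s ∧ Nat.card H ≤ s * Nat.card (SC k U H)

/-- K3. PROOF. A scalar `≠ 1` fixes no `u ≠ 0`. `a ↦` its scalar is an injective homomorphism from
`SA` to `kˣ` (cyclic of order `|k| - 1`, with at most `m` solutions of `c^m = 1`). -/
def K3_stmt : Prop :=
  ∀ (k U H : Type) [Field k] [Finite k] [AddCommGroup U] [Module k U] [Finite U] [Group H]
    [Finite H] [DistribMulAction H U], SLD k U H →
    (∀ z ∈ SA k U H, ∀ u : U, u ≠ 0 → z • u = u → z = 1) ∧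
    Nat.card (SA k U H) ∣ Nat.card k - 1 ∧
    (∀ m : ℕ, 1 ≤ m → Nat.card {a : H // a ∈ SA k U H ∧ a ^ m = 1} ≤ m) ∧
    (∀ a ∈ SA k U H, ∀ c ∈ SC k U H, a * c = c * a)

/-- CA (uses K2, K3). If there is a Heisenberg pair then `C = SC` is not contained in `A = SA`.

PROOF. Suppose `C ≤ A`. `z = ⁅x, y⁆ ∈ C ≤ A`, `z^p = ⁅x^p, y⁆ = 1`, `z ≠ 1`, so (K3) the
elements `a ∈ A` with `a^p = 1` are the powers of `z`. So `x ∉ A` (`x` does not commute with `y`),
`y ∉ A`: `σ_x, σ_y ≠ 1` in the cyclic group `Aut k`, `σ_x^p = σ_y^p = 1`, so `σ_y = σ_x^j` for some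
`j` and `w = y x^{-j} ∈ C ≤ A`. `w^p = y^p x^{-jp} z^{± j p (p-1)/2} = 1` (`z` commutes with
`x`, `y`; `p` odd). So `w` is a power of `z` and `y = w x^j` commutes with `x`, a contradiction. -/
def CA_stmt : Prop :=
  ∀ (k U H : Type) [Field k] [Finite k] [AddCommGroup U] [Module k U] [Finite U] [Group H]
    [Finite H] [DistribMulAction H U], SLD k U H → ∀ p : ℕ, p.Prime → p ≠ 2 →
    ∀ x y : H, Heis p x y → ¬ SC k U H ≤ SA k U H

/-- XC. PROOF. `σ = σ_x` is an automorphism of `k` of order `p` (`x ∉ SC`, `x^p = 1`). Let `k₀` be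
its fixed field; `|k| = |k₀|^p`. Let `λ ∈ kˣ` be the scalar of `z = ⁅x, y⁆`; `λ ≠ 1`, and `λ^p = 1`
(`z^p = ⁅x^p, y⁆ = 1`). `x` commutes with `z`, so `σ(λ) = λ`, `λ ∈ k₀`, and `p ∣ |k₀| - 1`. So
`|k₀| ≥ p + 1`, and `|k₀| ≥ 11` if `p = 5` (`6` is not a prime power). So
`|k| ≥ min(11^5, 8^7) > 131072` (for `p ≥ 7`, `|k| ≥ 8^7`). -/
def XC_stmt : Prop :=
  ∀ (k U H : Type) [Field k] [Finite k] [AddCommGroup U] [Module k U] [Finite U] [Group H]
    [Finite H] [DistribMulAction H U], SLD k U H → ∀ p : ℕ, p.Prime → 5 ≤ p →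
    ∀ x y : H, Heis p x y → ⁅x, y⁆ ∈ SA k U H → x ∉ SC k U H → 131072 ≤ Nat.card k

/-- PN. PROOF. `⁅x, y⁆` is a scalar `λ ≠ 1`, `λ^p = 1`, so `λ` has order `p`. `x` and `y` are
`k`-linear, `x y = λ y x`, `y^p = 1`. `U` is the direct sum of the eigenspaces of `y` for the
eigenvalues `λ^i`, `0 ≤ i < p` (`X^p - 1` is the product of the `X - λ^i`), which are permuted
cyclically by `x`, so they have the same dimension `d` and `n = p d`. -/
def PN_stmt : Prop :=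
  ∀ (k U H : Type) [Field k] [Finite k] [AddCommGroup U] [Module k U] [Finite U] [Group H]
    [Finite H] [DistribMulAction H U], SLD k U H → ∀ p : ℕ, p.Prime →
    ∀ x ∈ SC k U H, ∀ y ∈ SC k U H, Heis p x y → ⁅x, y⁆ ∈ SA k U H →
    p ∣ Module.finrank k U

/-- HOM. PROOF. Distinct homomorphisms `X → kˣ ⊆ k` are linearly independent in the
`|X|`-dimensional space of functions `X → k` (Dedekind, `linearIndependent_monoidHom`). -/
def HOM_stmt : Prop :=
  ∀ (X : Type) [CommGroup X] [Finite X] (k : Type) [Field k],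
    Finite (X →* kˣ) ∧ Nat.card (X →* kˣ) ≤ Nat.card X

/-- ES (uses K2, K3, HOM). Existence of `S`.

PROOF. Write `A = SA`, `C = SC`. Let `𝓜` be the set of the normal subgroups `Y` of `H` with
`A ≤ Y ≤ C`, `Y ⊄ A` which are minimal with this property. Every normal subgroup `Y₀` of `H` with
`A ≤ Y₀ ≤ C`, `Y₀ ⊄ A` contains a member of `𝓜` (`H` finite); so `𝓜 ≠ ∅`. Let `S` be the
supremum of `𝓜`. (b) For `Y ∈ 𝓜`: `⁅Y, Y⁆ A ≠ Y` (solvability of `Y / A`), so `⁅Y, Y⁆ ≤ A` by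
minimality; for a prime `ℓ` dividing `|Y / A|`, `{y ∈ Y : y^ℓ ∈ A}` is a normal subgroup of `H`
not contained in `A` (Cauchy), so it is `Y`. So `Mnr k U H S Y ℓ`.
(c) For distinct `Y, Y' ∈ 𝓜`, `Y ⊓ Y' ≤ A` by minimality, so `⁅Y, Y'⁆ ≤ A`.
(d) By (b), (c) `S / A` is generated by pairwise commuting abelian subgroups: `⁅S, S⁆ ≤ A`.
(e) `{x ∈ S : x y = y x ∀ y ∈ S}` is normal in `H`, abelian, contains `A` (`A` is central in `C`),
so it is contained in `A` by `maxi`.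
(f) Let `Y₀ = {y ∈ C : y s = s y ∀ s ∈ S}`, normal in `H`, `A ≤ Y₀`. `Y₀ ∩ S ≤ A` by (e). If
`Y₀ ⊄ A` it contains a member `Y` of `𝓜`, `Y ≤ Y₀ ∩ S ≤ A`, a contradiction. So `Y₀ ≤ A`. Let
`c ∈ C` with `⁅c, S⁆ ⊆ A`. Then `χ_c : S / A → kˣ`, `s ↦` the scalar of `⁅c, s⁆`, is a well defined
homomorphism (`A` central in `C`, scalars). `s₀ ↦ χ_{s₀}` is an injective map
`S / A → Hom(S / A, kˣ)` by (e), so surjective by HOM (`S / A` is abelian). So there is `s₀ ∈ S`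
with `χ_c = χ_{s₀}`; `c s₀⁻¹` commutes with all `s ∈ S` (`c s c⁻¹ = λ s = s₀ s s₀⁻¹`), so
it is in `Y₀ ≤ A` and `c ∈ S`.
(g) `gen`: `{s ∈ S : ⁅h, s⁆ ∈ A}` is a subgroup; if it contains all `Y ∈ 𝓜` it is `S`. -/
def ES_stmt : Prop :=
  ∀ (k U H : Type) [Field k] [Finite k] [AddCommGroup U] [Module k U] [Finite U] [Group H]
    [Finite H] [DistribMulAction H U], SLD k U H → ¬ SC k U H ≤ SA k U H →
    ∃ S : Subgroup H, SSt k U H S

/-- DU (uses K2, K3, HOM). Duality: `|W : A| |W^⊥ : A| = |S : A|`.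

PROOF. For `s, w ∈ S`, `⁅s, w⁆` is a scalar; `(s, w) ↦ ⁅s, w⁆` is bimultiplicative on `S` (because
commutators are central in `C`) and trivial if `s` or `w` is in `A`. `A ≤ P`. The
map `s ↦ (w ↦ ⁅s, w⁆)` induces an injection `S / P → Hom(W / A, kˣ)`, so `|S : P| ≤ |W : A|` by HOM
(`W / A` is abelian). The map `w ↦ (s ↦ ⁅s, w⁆)` induces an injection
`W / A → Hom(S / P, kˣ)` (`cent`; `S / P` is abelian because `⁅S, S⁆ ≤ A ≤ P`), so
`|W : A| ≤ |S : P|`. So `|W : A| |P : A| = |S : P| |P : A| = |S : A|`. -/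
def DU_stmt : Prop :=
  ∀ (k U H : Type) [Field k] [Finite k] [AddCommGroup U] [Module k U] [Finite U] [Group H]
    [Finite H] [DistribMulAction H U], SLD k U H → ∀ S : Subgroup H, SSt k U H S →
    ∀ W P : Subgroup H, SA k U H ≤ W → W ≤ S → (∀ x, x ∈ P ↔ x ∈ S ∧ ∀ w ∈ W, x * w = w * x) →
    (SA k U H).relIndex W * (SA k U H).relIndex P = (SA k U H).relIndex S

/-- SQ (uses DU). PROOF. Let `W` be maximal among the subgroups with `A ≤ W ≤ S` in which any two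
elements commute (`A` is one: `K3`, scalars commute), and `P` as in DU. `W ≤ P`. If `x ∈ P ∖ W` then
`⟨W, x⟩` is commutative, a contradiction. So `P = W` and `|S : A| = |W : A|²`. -/
def SQ_stmt : Prop :=
  ∀ (k U H : Type) [Field k] [Finite k] [AddCommGroup U] [Module k U] [Finite U] [Group H]
    [Finite H] [DistribMulAction H U], SLD k U H → ∀ S : Subgroup H, SSt k U H S →
    ∃ e : ℕ, (SA k U H).relIndex S = e ^ 2

/-- PK (uses K3). PROOF. By Cauchy there is `s ∈ S ∖ A` with `s^ℓ ∈ A`; by `cent` there is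
`t ∈ S` with `λ = ⁅s, t⁆ ≠ 1`; `λ ∈ A` is central in `S`, so `λ^ℓ = ⁅s^ℓ, t⁆ = 1`. So `λ` has order
`ℓ` and `ℓ ∣ |A| ∣ |k| - 1`. -/
def PK_stmt : Prop :=
  ∀ (k U H : Type) [Field k] [Finite k] [AddCommGroup U] [Module k U] [Finite U] [Group H]
    [Finite H] [DistribMulAction H U], SLD k U H → ∀ S : Subgroup H, SSt k U H S →
    ∀ ℓ : ℕ, ℓ.Prime → ℓ ∣ (SA k U H).relIndex S → ℓ ∣ Nat.card k - 1

/-- LI. PROOF. Let `s_i` be representatives of the cosets of `A` in `S`; they are `k`-linear maps of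
`U`. They are linearly independent over `k` in `End_k(U)` (of dimension `n²`): let
`∑ c_i s_i = 0` be a nontrivial relation with the smallest number of nonzero coefficients, which is
`≥ 2` as the `s_i` are invertible and `U ≠ 0`; let `c_1, c_2 ≠ 0`. `s_1 s_2⁻¹ ∉ A`, so by `cent`
there is `t ∈ S` not commuting with `s_1 s_2⁻¹`. `t s_i t⁻¹ = λ_i s_i` with scalars `λ_i`, and
`λ_1 ≠ λ_2` (otherwise `t` commutes with `s_1 s_2⁻¹`). Conjugating the relation by `t`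
and subtracting `λ_1` times the relation gives a shorter nontrivial one. -/
def LI_stmt : Prop :=
  ∀ (k U H : Type) [Field k] [Finite k] [AddCommGroup U] [Module k U] [Finite U] [Group H]
    [Finite H] [DistribMulAction H U], SLD k U H → ∀ S : Subgroup H, SSt k U H S →
    (SA k U H).relIndex S ≤ Module.finrank k U ^ 2

/-- CH1. The step of the chain.

PROOF. `C₁` acts on `S / A` by conjugation. The map `c ↦ ⁅c, e⁆ A` from `C₁` to `S / A` has its
values in `P / A`: for `w ∈ W`, `c w c⁻¹ ∈ w A` and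
`⁅c e c⁻¹, w⁆ = ⁅c e c⁻¹, c w c⁻¹⁆ = c ⁅e, w⁆ c⁻¹ = ⁅e, w⁆` (scalars are central in `C`), and
`⁅·, w⁆` is multiplicative on `S`, so `⁅⁅c, e⁆, w⁆ = ⁅c e c⁻¹, w⁆ ⁅e, w⁆⁻¹ = 1`.
If `c, c' ∈ C₁` have the same value then `c e c⁻¹ A = c' e c'⁻¹ A`, `c⁻¹ c' ∈ C₂`. So
`|C₁ : C₂| ≤ |P : A|`. For the second claim (`W = A`, `C₁ = C`, `P = S`): if `e ∉ A` the values
`c e c⁻¹ A = ⁅c, e⁆ e A` are `≠ A`, so there are at most `|S : A| - 1`. -/
def CH1_stmt : Prop :=
  ∀ (k U H : Type) [Field k] [Finite k] [AddCommGroup U] [Module k U] [Finite U] [Group H]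
    [Finite H] [DistribMulAction H U], SLD k U H → ∀ S : Subgroup H, SSt k U H S →
    ∀ W P C₁ C₂ : Subgroup H, SA k U H ≤ W → W ≤ S →
    (∀ x, x ∈ P ↔ x ∈ S ∧ ∀ w ∈ W, x * w = w * x) →
    (∀ c, c ∈ C₁ ↔ c ∈ SC k U H ∧ ∀ w ∈ W, ⁅c, w⁆ ∈ SA k U H) →
    ∀ e ∈ S, (∀ c, c ∈ C₂ ↔ c ∈ C₁ ∧ ⁅c, e⁆ ∈ SA k U H) →
    C₂.relIndex C₁ ≤ (SA k U H).relIndex P ∧
    (W = SA k U H → e ∉ SA k U H → C₂.relIndex C₁ ≤ (SA k U H).relIndex S - 1)

/-- CH (uses CH1, DU, K2, K3). The bound for `|C : S|`.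

PROOF. Let `E = |S : A|`. For `A ≤ W ≤ S` let `C_W = {c ∈ C : ⁅c, w⁆ ∈ A ∀ w ∈ W}`, a subgroup;
`C_A = C`, `C_S = S` (`self`, `comm`); `W^⊥` as in DU. Let `A = W_0 < W_1 < ... < W_m = S` be a
chain of subgroups in which `W_{j+1}` is generated by `W_j` and one element `e_{j+1}`,
and `w_j = |W_j : A|`. `m ≥ 1`. By CH1 and DU
`|C : S| = ∏_{0 ≤ j < m} |C_{W_j} : C_{W_{j+1}}| ≤ (E - 1) ∏_{1 ≤ j < m} E / w_j`, i.e.
`|C : S| E ≤ (E - 1) ∏_{0 ≤ j < m} E / w_j`. (1)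
Choose a chain in which all indices `|W_{j+1} : W_j|` are prime (`S / A` is abelian); then
`m = Om E`. The subgroups `W'_j = (W_{m-j})^⊥` also form such a chain, with `w'_j = E / w_{m-j}` by
DU (prime indices again, so each one is generated by the previous one and one element). So
`|C : S| E ≤ (E - 1) ∏_{0 ≤ j < m} w_{m-j} = (E - 1) ∏_{1 ≤ i ≤ m} w_i`. (2)
The product of (1) and (2) is `(|C : S| E)² ≤ (E - 1)² E^m w_m / w_0 = (E - 1)² E^(m+1)`. -/
def CH_stmt : Prop :=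
  ∀ (k U H : Type) [Field k] [Finite k] [AddCommGroup U] [Module k U] [Finite U] [Group H]
    [Finite H] [DistribMulAction H U], SLD k U H → ∀ S : Subgroup H, SSt k U H S →
    (S.relIndex (SC k U H) * (SA k U H).relIndex S) ^ 2 ≤
      ((SA k U H).relIndex S - 1) ^ 2 *
        (SA k U H).relIndex S ^ (Om ((SA k U H).relIndex S) + 1)

/-- FS1. Fixed spaces, first estimate.

PROOF. `D = {u : w u = u}` is a `k`-subspace; let `d` be its dimension. Let `λ ∈ kˣ` be the scalar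
of `⁅w, t⁆`: `w t = λ t w`, so `w t^i u = λ^i t^i w u = λ^i t^i u` for `u ∈ D`:
`t^i D ⊆ ker(w - λ^i)`. For `0 ≤ i < m` the `λ^i` are distinct, so the sum of the eigenspaces is
direct and `m d ≤ n`. -/
def FS1_stmt : Prop :=
  ∀ (k U H : Type) [Field k] [Finite k] [AddCommGroup U] [Module k U] [Finite U] [Group H]
    [Finite H] [DistribMulAction H U], SLD k U H →
    ∀ w ∈ SC k U H, ∀ t ∈ SC k U H, ⁅w, t⁆ ∈ SA k U H → ∀ m : ℕ, m ≤ orderOf ⁅w, t⁆ →
    ∃ d : ℕ, m * d ≤ Module.finrank k U ∧ Nat.card {u : U // w • u = u} = Nat.card k ^ d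

/-- FS2 (uses K2, FS1). Fixed spaces of elements outside `S`.

PROOF. `w = ⁅z, u⁆ ∈ S ∖ A`. By `cent` there is `t ∈ S` not commuting with `w`, so
`⁅w, t⁆ ∈ A` has order `≥ 2`, in case (2) order `p ≥ 5` since `⁅w, t⁆^p = ⁅w^p, t⁆ = 1`. By FS1 the
fixed space of `w` has dimension `d'` with `2 d' ≤ n`, resp. `5 d' ≤ n`. Let `D` be the fixed space
of `z`, of dimension `d`. If `v ∈ D ∩ u D` then
`w v = z u z⁻¹ (u⁻¹ v) = z u (u⁻¹ v) = z v = v`. So `2 d - n ≤ dim (D ∩ u D) ≤ d'`, and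
`4 d ≤ 3 n`, resp. `10 d ≤ 6 n`. In case (1) such a `u` exists by `self`. -/
def FS2_stmt : Prop :=
  ∀ (k U H : Type) [Field k] [Finite k] [AddCommGroup U] [Module k U] [Finite U] [Group H]
    [Finite H] [DistribMulAction H U], SLD k U H → ∀ S : Subgroup H, SSt k U H S →
    (∀ z ∈ SC k U H, z ∉ S →
      ∃ d : ℕ, 4 * d ≤ 3 * Module.finrank k U ∧ Nat.card {u : U // z • u = u} = Nat.card k ^ d) ∧
    (∀ p : ℕ, p.Prime → 5 ≤ p → ∀ z ∈ SC k U H, ∀ u ∈ S, ⁅z, u⁆ ∉ SA k U H →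
      ⁅z, u⁆ ^ p ∈ SA k U H →
      ∃ d : ℕ, 5 * d ≤ 3 * Module.finrank k U ∧ Nat.card {u : U // z • u = u} = Nat.card k ^ d)

/-- FS4 (uses K3, FS1). Elements of order `p` of `S`.

PROOF. (1) By `cent` there is `t ∈ S` not commuting with `z`; `⁅z, t⁆ ∈ A` and
`⁅z, t⁆^p = ⁅z^p, t⁆ = 1`, so it has order `p`; FS1. (2) The map `z ↦ z A ∈ S / A`: if `z` and
`z a`, `a ∈ A`, both have `p`-th power `1` then `a^p = 1` (`a` commutes with `z`), so
each fibre has at most `p` elements (K3). -/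
def FS4_stmt : Prop :=
  ∀ (k U H : Type) [Field k] [Finite k] [AddCommGroup U] [Module k U] [Finite U] [Group H]
    [Finite H] [DistribMulAction H U], SLD k U H → ∀ S : Subgroup H, SSt k U H S →
    ∀ p : ℕ, p.Prime →
    (∀ z ∈ S, z ∉ SA k U H → z ^ p = 1 →
      ∃ d : ℕ, p * d ≤ Module.finrank k U ∧ Nat.card {u : U // z • u = u} = Nat.card k ^ d) ∧
    Nat.card {z : H // z ∈ S ∧ z ^ p = 1} ≤ p * (SA k U H).relIndex S

/-- C6. Heisenberg pairs acting on abelian `ℓ`-groups.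

PROOF. Write `X` additively, `z = ⁅x, y⁆ ≠ 1`, `z^p = ⁅x^p, y⁆ = 1`. Let
`X₁ = {v : ∑_{0 ≤ j < p} z^j v = 0}`, an `x, y`-invariant subgroup. If `v ∈ X₁` is fixed
by `z` then `p v = 0`, so `v = 0`. `X₁ ≠ 0`: it contains all `z v - v`. For
`0 ≤ j < p` let `Y_j = {v ∈ X₁ : x z^j v = v}`. From `y x y⁻¹ = z⁻¹ x` (up to the sign convention:
`x y x⁻¹ y⁻¹ = z`, so `y x y⁻¹ = z⁻¹ x`) we get `y Y_j = Y_{j-1}` (indices mod `p`), so all `|Y_j|`
are equal. `X₁` is the direct sum of the `Y_j`: the maps `e_j = (1/p) ∑_{0 ≤ i < p} (x z^j)^i`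
(`p` is invertible on `X`) map `X₁` to `Y_j` and
are the identity on `Y_j`; `∑_j e_j = (1/p) ∑_i x^i ∑_j z^{i j} = 1` on `X₁` (for `0 < i < p`,
`∑_j z^{i j} = ∑_j z^j = 0` on `X₁`), and `e_j e_l = 0` for `j ≠ l` since `Y_j ∩ Y_l` is fixed by
`z^{j-l}`, hence by `z` (`0 < |j - l| < p`), hence `0`. So
`|X₁| = |Y_0|^p`, and `|Y_0| = ℓ^i > 1`. `z` acts on `Y_0` and has the only fixed point `0`, so
`|Y_0| ≡ 1` mod `p`. `|X₁|` divides `|X|`. -/
def C6_stmt : Prop :=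
  ∀ (X : Type) [CommGroup X] [Finite X] (p ℓ : ℕ), p.Prime → ℓ.Prime → ℓ ≠ p → IsPGroup ℓ X →
    ∀ x y : MulAut X, Heis p x y → ∃ i : ℕ, 1 ≤ i ∧ ℓ ^ i % p = 1 ∧ ℓ ^ (i * p) ∣ Nat.card X

/-- FIT (uses NQL). In a finite solvable group `G` without nontrivial normal `p`-subgroups an element
`x` with `x^p = 1` centralising all normal `ℓ`-subgroups, `ℓ ≠ p`, is trivial.

PROOF. Let `R` be the supremum of all normal `ℓ`-subgroups for all primes `ℓ ≠ p`; `p ∤ |R|`. `x`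
centralises `R`. Let `C = C_G(R)`, `Z = C ⊓ R`. If `C ⊄ Z`, NQL gives a normal `ℓ`-subgroup
`Q ≤ C`, `Q ⊄ Z`; `ℓ ≠ p` by hypothesis (`Q ≠ ⊥`), so `Q ≤ R`, a contradiction. So `x ∈ C ≤ R`,
and `x^p = 1` gives `x = 1`. -/
def FIT_stmt : Prop :=
  ∀ (G : Type) [Group G] [Finite G] (p : ℕ), p.Prime → Group.IsSolvable G →
    (∀ P : Subgroup G, P.Normal → IsPGroup p P → P = ⊥) → ∀ x : G, x ^ p = 1 →
    (∀ (ℓ : ℕ) (Q : Subgroup G), ℓ.Prime → ℓ ≠ p → Q.Normal → IsPGroup ℓ Q →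
      ∀ y ∈ Q, x * y = y * x) → x = 1

/-- GLO. The order of the automorphism group of an elementary abelian group (`GL(μ, p)`,
`Matrix.card_GL_field`). -/
def GLO_stmt : Prop :=
  ∀ (M : Type) [CommGroup M] [Finite M] (p μ : ℕ), p.Prime → (∀ m : M, m ^ p = 1) →
    Nat.card M = p ^ μ → Nat.card (MulAut M) = ∏ j ∈ Finset.range μ, (p ^ μ - p ^ j)

/-- NC7 (arithmetic).

PROOF. The product is a power of `p` times `∏_{1 ≤ j ≤ μ} (p^j - 1)`, so `ℓ^(i p)` divides the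
latter. Suppose `p^μ < 15625 = 5^6`. `p = 5`: `μ ≤ 5`, `ℓ^(5 i)` divides
`4 * 24 * 124 * 624 * 3124 = 2^13 * 3^2 * 11 * 13 * 31 * 71`, so `ℓ = 2` (exponent at least `5`);
`2^i ≡ 1` mod `5` gives `i ≥ 4`, `2^20` does not divide. `p = 7`: `μ ≤ 4`, `ℓ^(7 i)` divides
`6 * 48 * 342 * 2400 = 2^11 * 3^5 * 5^2 * 19`, so `ℓ = 2`, `i ≥ 3`, a contradiction. `p ≥ 11`:
`μ ≤ 4` (`11^5 > 15625`), and
`ℓ^(i p) ≤ ∏_{j ≤ 4} (p^j - 1) < p^10`, but `ℓ^i ≥ p + 1` (it is `≡ 1` mod `p` and `> 1`) so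
`ℓ^(i p) > p^p ≥ p^11`, a contradiction. -/
def NC7_stmt : Prop :=
  ∀ p μ ℓ i : ℕ, p.Prime → 5 ≤ p → ℓ.Prime → ℓ ≠ p → 1 ≤ i → ℓ ^ i % p = 1 →
    ℓ ^ (i * p) ∣ ∏ j ∈ Finset.range μ, (p ^ μ - p ^ j) → 15625 ≤ p ^ μ

/-- C7 (uses C6, FIT, GLO, NC7). Heisenberg pairs in irreducible solvable linear groups in
characteristic `p`.

PROOF. `|M| = p^μ`. `H` has no nontrivial normal `p`-subgroup `P`: the fixed points of `P` in `M`
are a nontrivial (`p`-groups) `H`-invariant subgroup, so equal to `M`, and `P = 1`. Let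
`z = ⁅x, y⁆ ≠ 1`, `z^p = 1`. By FIT there are a prime `ℓ ≠ p` and a normal `ℓ`-subgroup `Q` of `H`
not centralised by `z`. Let `X = Q / ⁅Q, Q⁆` (an abelian `ℓ`-group), on which `x, y` act by
conjugation, as `x', y' ∈ MulAut X`. `⁅x', y'⁆ ≠ 1`: otherwise `z` stabilises every coset of
`⁅Q, Q⁆`, and has a fixed point in each (`z` has order `p`, the cosets have `ℓ`-power order), so
`Q = C_Q(z) ⁅Q, Q⁆` and `Q = C_Q(z)` because `Q` is nilpotent, a contradiction. So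
`Heis p x' y'`, and C6 gives `i` with `ℓ^(i p) ∣ |X| ∣ |Q| ∣ |MulAut M|`. Now GLO, NC7. -/
def C7_stmt : Prop :=
  ∀ (M : Type) [CommGroup M] [Finite M] (p : ℕ), p.Prime → 5 ≤ p → (∀ m : M, m ^ p = 1) →
    ∀ H : Subgroup (MulAut M), Group.IsSolvable H →
    (∀ W : Subgroup M, (∀ h ∈ H, ∀ w ∈ W, h w ∈ W) → W = ⊥ ∨ W = ⊤) →
    ∀ x ∈ H, ∀ y ∈ H, Heis p x y → 15625 ≤ Nat.card M

/-- YA (uses C6). PROOF. `X = Y / A` is abelian of exponent `ℓ`, `H` acts on it by conjugation,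
`x, y` as `x', y' ∈ MulAut X`, and `⁅x', y'⁆ ≠ 1` because of `u`. So `Heis p x' y'`, C6. -/
def YA_stmt : Prop :=
  ∀ (H : Type) [Group H] [Finite H] (p ℓ : ℕ), p.Prime → ℓ.Prime → ℓ ≠ p →
    ∀ A Y : Subgroup H, A.Normal → Y.Normal → A ≤ Y → (∀ a ∈ Y, ∀ b ∈ Y, ⁅a, b⁆ ∈ A) →
    (∀ y ∈ Y, y ^ ℓ ∈ A) → ∀ x y : H, Heis p x y → (∃ u ∈ Y, ⁅⁅x, y⁆, u⁆ ∉ A) →
    ∃ i : ℕ, 1 ≤ i ∧ ℓ ^ i % p = 1 ∧ ℓ ^ (i * p) ∣ A.relIndex Y

/-- YB (uses C7). PROOF. As for YA; the image of `H` in `MulAut (Y / A)` is solvable, and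
irreducible by the minimality of `Y`. -/
def YB_stmt : Prop :=
  ∀ (H : Type) [Group H] [Finite H] (p : ℕ), p.Prime → 5 ≤ p → Group.IsSolvable H →
    ∀ A Y : Subgroup H, A.Normal → Y.Normal → A ≤ Y → (∀ a ∈ Y, ∀ b ∈ Y, ⁅a, b⁆ ∈ A) →
    (∀ y ∈ Y, y ^ p ∈ A) →
    (∀ Z : Subgroup H, Z.Normal → A ≤ Z → Z ≤ Y → Z ≤ A ∨ Y ≤ Z) →
    ∀ x y : H, Heis p x y → (∃ u ∈ Y, ⁅⁅x, y⁆, u⁆ ∉ A) → 15625 ≤ A.relIndex Y

/-- SUM (uses K2, K3, SQ, PK, LI, CH). Summary.

PROOF. `E = |S : A| = e²`, `E ≥ 2`, so `e ≥ 2`; `e² ≤ n²` by LI. `Om E = 2 Om e`, so by CH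
`|C : S| E ≤ (e² - 1) e^(2 Om e + 1) = Bd e`.
`|H| ≤ s |C| = s |C : S| |S : A| |A| ≤ s (|k| - 1) Bd e`. -/
def SUM_stmt : Prop :=
  ∀ (k U H : Type) [Field k] [Finite k] [AddCommGroup U] [Module k U] [Finite U] [Group H]
    [Finite H] [DistribMulAction H U], SLD k U H → ∀ S : Subgroup H, SSt k U H S →
    ∃ e r s : ℕ, r.Prime ∧ 1 ≤ s ∧ Nat.card k = r ^ s ∧ (SA k U H).relIndex S = e ^ 2 ∧ 2 ≤ e ∧
      e ≤ Module.finrank k U ∧ Nat.card H ≤ s * (Nat.card k - 1) * Bd e ∧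
      (∀ ℓ : ℕ, ℓ.Prime → ℓ ∣ e → ℓ ∣ Nat.card k - 1) ∧
      Nat.card U = Nat.card k ^ Module.finrank k U

/-- NIa (arithmetic). Write `K = r^s`; `(s (K - 1))² ≤ K³` always (`s² ≤ K` except for `K = 8`,
`441 ≤ 512`).

PROOF. `e = p e'`, `Om e ≤ 1 + log₂ e'`, `n ≥ e`. `K ≥ 11` if `p = 5` (`6` is not a prime power),
`K ≥ 8` if `p = 7`, `K ≥ 12` if `p ≥ 11`. The second term is negligible. The claim follows from
`K^(3/2) e^(2 Om e + 3) + p e² K^(n/p) + 1 < K^n`. For `e = p` (`Om e = 1`):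
`K^(3/2) p^5 + p^3 K^(n/p) + 1 < K^n`, `n ≥ p`: at `p = 5`, `K = 11`, `n = 5`:
`s (K - 1) Bd 5 = 10 * 24 * 125`, total `< 32627 < 161051`; at `p = 7`, `K = 8`, `n = 7`:
`21 * 48 * 343 + 343 * 8 + 1 = 348489 < 2097152`. In general compare `e^(2 Om e + 3)` with
`(p+1)^(n - 3/2)`: the exponent `(2 log₂ e' + 5) log₂ (p e')` against
`(p e' - 3/2) log₂ (p + 1)`. (Margins are large; checked numerically for all `p ≤ 31`,
`e ≤ 400`.) -/
def NIa_stmt : Prop :=
  ∀ p e n r s : ℕ, p.Prime → 5 ≤ p → p ∣ e → 2 ≤ e → e ≤ n → r.Prime → 1 ≤ s → p ∣ r ^ s - 1 →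
    s * (r ^ s - 1) * Bd e + p * e ^ 2 * (r ^ s) ^ (n / p) + 1 < (r ^ s) ^ n

/-- NIb1 (arithmetic). PROOF. With `K = r^s ≥ 2^17`, `s (K - 1) ≤ K^(3/2)`,
`Bd e < e^(2 Om e + 3)`, `Om e ≤ log₂ e`; it is enough that
`e^(2 log₂ e + 3) ≤ (2^17)^(n - 3/2) / 2` for `2 ≤ e ≤ n`, i.e.
`(2 log₂ n + 3) log₂ n + 1 ≤ 17 (n - 3/2)` (`6 ≤ 8.5` at `n = 2`). -/
def NIb1_stmt : Prop :=
  ∀ e n r s : ℕ, 2 ≤ e → e ≤ n → r.Prime → 1 ≤ s → 131072 ≤ r ^ s →
    s * (r ^ s - 1) * Bd e + 1 < (r ^ s) ^ n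

/-- NIb2 (arithmetic).

PROOF. `K = r^s ≡ 1` mod `p` and mod every prime divisor of `e`; `n ≥ p` is a multiple of `p`.
`p = 5`: `K ≥ 11`. `n = 5`: `e = 2, 3, 5`: `Bd e = 3 * 8, 8 * 27, 24 * 125`; `e = 4`:
`Bd 4 = 15 * 4^5 = 15360`, `10 * 15360 + 1 < 161051`; and `(s (K-1))² ≤ K³` for `K > 11`.
`p = 7`, `n = 7`: `e ≤ 7`; if `e` is even then `K` is odd, `K ≥ 29`; `e = 6`:
`Bd 6 = 35 * 6^5 = 272160`, `28 * 272160 < 29^7`; `e` odd: `e ≤ 7`,
`Bd 7 = 48 * 343`, `21 * 48 * 343 < 8^7`. For `n ≥ 10` the crude bounds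
`s (K-1) ≤ K^(3/2)`, `Bd e < e^(2 Om e + 3)` suffice (checked numerically: `p ≤ 31`, `n ≤ 200`;
for `K = 8`, i.e. `p = 7`, `e` is odd so `Om e ≤ log₃ e`). -/
def NIb2_stmt : Prop :=
  ∀ p e n r s : ℕ, p.Prime → 5 ≤ p → 2 ≤ e → e ≤ n → p ∣ n → r.Prime → 1 ≤ s → p ∣ r ^ s - 1 →
    (∀ ℓ : ℕ, ℓ.Prime → ℓ ∣ e → ℓ ∣ r ^ s - 1) →
    s * (r ^ s - 1) * Bd e + 1 < (r ^ s) ^ n

/-- NII (arithmetic).

PROOF. `K = r^s`, `B = s (K - 1) Bd e ≤ K^(3/2) e^(2 Om e + 3)`. With `2^m ≤ n < 2^(m+1)`: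
`Om e ≤ m`, `e^(2 Om e + 3) < 2^((m+1)(2m+3))`. It is enough that
`2^((m+1)(2m+3)) * 2 ≤ K^(n - d - 3/2)`, (exponents of 2)
(b) `n ≥ 125`, `K ≥ 8`, `n - d ≥ 2 n / 5`: `m = 6`: `105 + 1 ≤ 3 (50 - 3/2) = 145.5`; `m ≥ 7`:
`(m+1)(2m+3) + 1 ≤ 3 (2^(m+1) / 5 - 3/2)`: `137 ≤ 149.1` at `m = 7`, then by induction.
(a) `n - d ≥ n / 4`: `n ≥ 402`, `K ≥ 12`: `3.58 (n / 4 - 3/2)`, at `m = 8`: `172 ≤ 354`; `n ≥ 1024`,
`K ≥ 3`: `1.58 (n / 4 - 3/2)`, at `m = 10`: `254 ≤ 402`. -/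
def NII_stmt : Prop :=
  ∀ e n r s d : ℕ, 2 ≤ e → e ≤ n → r.Prime → 1 ≤ s →
    ((402 ≤ n ∧ 12 ≤ r ^ s ∧ 4 * d ≤ 3 * n) ∨ (1024 ≤ n ∧ 3 ≤ r ^ s ∧ 4 * d ≤ 3 * n) ∨
      (125 ≤ n ∧ 8 ≤ r ^ s ∧ 5 * d ≤ 3 * n)) →
    s * (r ^ s - 1) * Bd e * (r ^ s) ^ d + s * (r ^ s - 1) * Bd e + 1 < (r ^ s) ^ n

/-- FIN. PROOF. The number of good `u ≠ 0` is larger than `|H|`, so there is one, `v`, and they are
not all in the orbit of `v`, which has at most `|H|` elements. -/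
def FIN_stmt : Prop :=
  ∀ (U H : Type) [AddCommGroup U] [Finite U] [Group H] [Finite H] [DistribMulAction H U] (p : ℕ),
    {u : U | u ≠ 0 ∧ ¬ Good p H u}.ncard + Nat.card H + 1 < Nat.card U → Two p H U

/-- CIa (uses K3, FS4, SUM, NIa, FIN). All commutators of Heisenberg pairs are in `S`, not all are
scalars.

PROOF. `z = ⁅x, y⁆ ∈ S ∖ A`, `z^p = ⁅x^p, y⁆ = 1`, so `p ∣ |S : A| = e²`, `p ∣ e`, and
`p ∣ |k| - 1` (SUM). Let `u ≠ 0` be fixed by the Heisenberg pair `x', y'`, and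
`z' = ⁅x', y'⁆ ∈ S`: `z' u = u`, `z' ≠ 1`, so `z' ∉ A` (K3), `z'^p = 1`, and the fixed
space of `z'` has at most `K^(n/p)` elements by FS4 (1), `K = |k|`. By FS4 (2) the number of
such `u` is at most `p e² K^(n/p)`. Use SUM, NIa and FIN. -/
def CIa_stmt : Prop :=
  ∀ (k U H : Type) [Field k] [Finite k] [AddCommGroup U] [Module k U] [Finite U] [Group H]
    [Finite H] [DistribMulAction H U], SLD k U H → ∀ S : Subgroup H, SSt k U H S →
    ∀ p : ℕ, p.Prime → 5 ≤ p → (∀ x y : H, Heis p x y → ⁅x, y⁆ ∈ S) →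
    (∃ x y : H, Heis p x y ∧ ⁅x, y⁆ ∉ SA k U H) → Two p H U

/-- CIb (uses K3, XC, PN, SUM, NIb1, NIb2, FIN). All commutators of Heisenberg pairs are scalars.

PROOF. No `u ≠ 0` is fixed by a Heisenberg pair `x', y'`, because then it is fixed by the scalar
`⁅x', y'⁆ ≠ 1` (K3). So it is enough that `|H| + 1 < |U|`. If `x ∉ SC`, `|k| ≥ 131072` by XC; if
`y ∉ SC` use XC for the Heisenberg pair `y, x` (`⁅y, x⁆ = ⁅x, y⁆⁻¹`); in both cases NIb1. If
`x, y ∈ SC`: `p ∣ n` by PN, and `p ∣ |k| - 1` since `⁅x, y⁆ ∈ SA` has order `p` (K3); use NIb2. -/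
def CIb_stmt : Prop :=
  ∀ (k U H : Type) [Field k] [Finite k] [AddCommGroup U] [Module k U] [Finite U] [Group H]
    [Finite H] [DistribMulAction H U], SLD k U H → ∀ S : Subgroup H, SSt k U H S →
    ∀ p : ℕ, p.Prime → 5 ≤ p → (∀ x y : H, Heis p x y → ⁅x, y⁆ ∈ SA k U H) →
    (∃ x y : H, Heis p x y) → Two p H U

/-- CII (uses K2, K3, FS2, FS4, YA, YB, SUM, PK, NII, FIN). Some commutator of a Heisenberg pair is
outside `S`.

PROOF. Let `K = |k|`, `n` the dimension, `E = e² = |S : A| ≤ n²`. For a Heisenberg pair `x', y'`,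
`z' = ⁅x', y'⁆ ∈ SC` (K2), and if `z' ∉ S` there are by `self`, `gen` a `Y'` and `ℓ'` with
`Mnr k U H S Y' ℓ'` and `u' ∈ Y'`, `⁅z', u'⁆ ∉ A`. The vectors `u ≠ 0` which are not good are fixed
by some `z' = ⁅x', y'⁆`, `z' ∉ A`. If `z' ∈ S` the fixed space of `z'` has `K^d` elements with
`p d ≤ n` (FS4). If `z' ∉ S` it has `K^d` elements with `4 d ≤ 3 n` (FS2).
Case (a): for some Heisenberg pair `x', y'` with `z' ∉ S` there are `Y', ℓ'` as above with
`ℓ = ℓ' ≠ p`. By YA there is `i` with `t = ℓ^i ≡ 1` mod `p`, `t^p ∣ |Y' : A| ∣ E`, and `ℓ ∣ K - 1` by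
PK. `t ≥ p + 1`, and `t ≥ 11` if `p = 5` (`6` is not a prime power). If `p = 5`, `t = 11`, then
`ℓ = 11`, `K ≥ 12`, `n² ≥ E ≥ 11^5`, `n ≥ 402`. Otherwise `t^p ≥ 2^20` (`p = 5`: `t ≥ 16`; `p = 7`:
`8^7`; `p ≥ 11`: `12^11`), so `n ≥ 1024`, and `K ≥ 3`. The number of `u ≠ 0` which are not
good is at most `|H| K^d`, `d = ⌊3 n / 4⌋`. Use SUM, NII, FIN.
Case (b): otherwise every `ℓ'` as above is `p`. Take one Heisenberg pair with `z' ∉ S`; YB gives
`15625 ≤ |Y' : A| ≤ E ≤ n²`, so `n ≥ 125`; `p ∣ E` so `p ∣ K - 1` (PK) and `K ≥ 8` (`K ≥ p + 1`,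
and `K ≠ 6` if `p = 5`). For all Heisenberg pairs with `z' ∉ S`, `⁅z', u'⁆ ∈ Y'` has `p`-th power in
`A`, so the fixed space of `z'` has `K^d` elements with `5 d ≤ 3 n` by FS2 (2); also if `z' ∈ S`.
So the number of `u ≠ 0` which are not good is at most `|H| K^d`, `d = ⌊3 n / 5⌋`. Use SUM, NII,
FIN. -/
def CII_stmt : Prop :=
  ∀ (k U H : Type) [Field k] [Finite k] [AddCommGroup U] [Module k U] [Finite U] [Group H]
    [Finite H] [DistribMulAction H U], SLD k U H → ∀ S : Subgroup H, SSt k U H S →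
    ∀ p : ℕ, p.Prime → 5 ≤ p → (∃ x y : H, Heis p x y ∧ ⁅x, y⁆ ∉ S) → Two p H U

/-- TOC (uses CA, ES, CIa, CIb, CII). PROOF. If `H` has no Heisenberg pair take `v = 0` and
`w ≠ 0`. Otherwise `¬ SC ≤ SA` by CA, ES gives `S`, and CII, CIa or CIb applies. -/
def TOC_stmt : Prop :=
  ∀ (k U H : Type) [Field k] [Finite k] [AddCommGroup U] [Module k U] [Finite U] [Group H]
    [Finite H] [DistribMulAction H U], SLD k U H → ∀ p : ℕ, p.Prime → 5 ≤ p → Two p H U

end QS
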